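import Mathlib

set_option autoImplicit false

namespace Pool.Agent.H604Z

/-- A finite chain of prime ideals is saturated (maximal among chains with the same end points) if
no prime ideal lies strictly between two consecutive terms. -/
def IsSaturatedChain {R : Type*} [CommRing R] (c : LTSeries (PrimeSpectrum R)) : Prop :=
  ∀ i : Fin c.length, c i.castSucc ⋖ c i.succ

/-- A ring is catenary (Stacks project, Tag 00NI) if for all primes `p ⊆ q` the lengths of the
finite chains of primes from `p` to `q` are bounded and all saturated such chains have the same
length. -/
def IsCatenaryRing (R : Type*) [CommRing R] : Prop :=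
  ∀ p q : PrimeSpectrum R, p ≤ q →
    (∃ n : ℕ, ∀ c : LTSeries (PrimeSpectrum R), c.head = p → c.last = q → c.length ≤ n) ∧
    ∀ c d : LTSeries (PrimeSpectrum R), c.head = p → c.last = q → d.head = p → d.last = q →
      IsSaturatedChain c → IsSaturatedChain d → c.length = d.length

/-- An `R`-algebra `S` is solid if there is a nonzero `R`-linear map `S → R`. -/
def IsSolidAlgebra (R S : Type*) [CommRing R] [CommRing S] [Algebra R S] : Prop :=
  ∃ f : S →ₗ[R] R, f ≠ 0

/-- The integral closure of `R` in an `R`-algebra `Ω` is a solid `R`-algebra. -/
def HasSolidClosureIn (R Ω : Type*) [CommRing R] [CommRing Ω] [Algebra R Ω] : Prop :=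
  IsSolidAlgebra R (integralClosure R Ω)

/-- The absolute integral closure `R⁺` of a domain `R`, its integral closure in the algebraic
closure of its fraction field, is a solid `R`-algebra. -/
def HasSolidPlus (R : Type*) [CommRing R] [IsDomain R] : Prop :=
  HasSolidClosureIn R (AlgebraicClosure (FractionRing R))

end Pool.Agent.H604Z
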