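import Mathlib

set_option autoImplicit false

namespace Pool.Agent.H604Z.Glue

theorem noeth_of_killed {R M : Type*} [CommRing R] [AddCommGroup M] [Module R M] (J : Ideal R)
    (hJ : J.IsMaximal) (P : Submodule R M) (hP : P.FG) :
    (∀ v ∈ P, ∀ j ∈ J, j • v = 0) → IsNoetherian R P := by
  induction P, hP using Submodule.fg_induction with
  | singleton v =>
    intro h
    have : IsSimpleModule R (R ⧸ J) := isSimpleModule_iff_isCoatom.2 hJ.out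
    let f : (R ⧸ J) →ₗ[R] M := J.liftQ (LinearMap.toSpanSingleton R M v) (fun j hj => by
      simpa using h v (Submodule.mem_span_singleton_self v) j hj)
    have e : LinearMap.range f = R ∙ v := by
      rw [Submodule.range_liftQ, LinearMap.range_toSpanSingleton]
    rw [← e]
    infer_instance
  | sup P₁ P₂ _ _ h₁ h₂ =>
    intro h
    have := h₁ fun v hv => h v (Submodule.mem_sup_left hv)
    have := h₂ fun v hv => h v (Submodule.mem_sup_right hv)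
    infer_instance

theorem covB {B : Type*} [CommRing B] [IsNoetherianRing B] (Q₀ Q₁ : PrimeSpectrum B)
    (hlt : Q₀ < Q₁) (t : B) (ht : t ∈ Q₁.asIdeal) (h : Q₁.asIdeal ≤ Q₀.asIdeal ⊔ Ideal.span {t}) :
    Q₀ ⋖ Q₁ := by
  refine ⟨hlt, fun Q h0 h1 => ?_⟩
  have h0' : Q₀.asIdeal ≤ Q.asIdeal := h0.le
  have h1' : Q.asIdeal ≤ Q₁.asIdeal := h1.le
  have htQ : t ∉ Q.asIdeal := by
    intro htQ
    apply h1.not_ge
    exact h.trans (sup_le h0' ((Ideal.span_singleton_le_iff_mem _).2 htQ))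
  have hle : Q.asIdeal ≤ Q₀.asIdeal ⊔ Ideal.span {t} • Q.asIdeal := by
    intro a ha
    obtain ⟨q, hq, u, hu, rfl⟩ := Submodule.mem_sup.1 (h (h1' ha))
    obtain ⟨c, rfl⟩ := Ideal.mem_span_singleton'.1 hu
    have h2 : c * t ∈ Q.asIdeal := by
      have := Q.asIdeal.sub_mem ha (h0' hq)
      simpa using this
    have h3 : c ∈ Q.asIdeal := (Q.isPrime.mem_or_mem h2).resolve_right htQ
    refine Submodule.add_mem_sup hq ?_
    rw [mul_comm]
    exact Submodule.smul_mem_smul (Ideal.mem_span_singleton_self t) h3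
  obtain ⟨r, hr, hrQ⟩ := Submodule.exists_sub_one_mem_and_smul_le_of_fg_of_le_sup
    (IsNoetherian.noetherian Q.asIdeal) le_rfl hle
  have hr0 : r ∉ Q₀.asIdeal := by
    intro hr0
    apply Q₁.isPrime.ne_top
    rw [Ideal.eq_top_iff_one]
    have h2 : r - 1 ∈ Q₁.asIdeal := (Ideal.span_singleton_le_iff_mem _).2 ht hr
    have := Q₁.asIdeal.sub_mem (h1' (h0' hr0)) h2
    simpa using this
  apply h0.not_ge
  intro a ha
  have : r * a ∈ Q₀.asIdeal := hrQ (Submodule.smul_mem_pointwise_smul a r _ ha)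
  exact (Q₀.isPrime.mem_or_mem this).resolve_left hr0

variable {B F : Type*} [CommRing B] [Field F] (π₁ π₂ : B →+* F)

/-- the two maps are onto and separated by `x` -/
structure Data (x : B) : Prop where
  s₁ : Function.Surjective π₁
  s₂ : Function.Surjective π₂
  x₁ : π₁ x = 1
  x₂ : π₂ x = 0

variable {π₁ π₂}

lemma mem_of_J {j : B} (h₁ : π₁ j = 0) (h₂ : π₂ j = 0) (b : B) : j * b ∈ π₁.eqLocus π₂ := by
  simp [RingHom.mem_eqLocus, h₁, h₂]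

lemma surjR {x : B} (D : Data π₁ π₂ x) (γ : F) : ∃ r ∈ π₁.eqLocus π₂, π₁ r = γ := by
  obtain ⟨b₁, h₁⟩ := D.s₁ γ
  obtain ⟨b₂, h₂⟩ := D.s₂ γ
  refine ⟨x * b₁ + (1 - x) * b₂, ?_, ?_⟩
  · simp [RingHom.mem_eqLocus, h₁, h₂, D.x₁, D.x₂]
  · simp [h₁, D.x₁]

lemma finite {x : B} (D : Data π₁ π₂ x) : Module.Finite (π₁.eqLocus π₂) B := by
  classical
  refine ⟨⟨{1, x}, ?_⟩⟩
  rw [eq_top_iff]
  intro b _
  obtain ⟨r, hr, hrb⟩ := surjR D (π₁ b - π₂ b)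
  have h2 : π₂ r = π₁ b - π₂ b := by rw [← hrb]; exact (RingHom.mem_eqLocus.1 hr).symm
  have hs : b - r * x ∈ π₁.eqLocus π₂ := by
    simp [RingHom.mem_eqLocus, hrb, D.x₁, D.x₂]
  rw [Finset.coe_pair, Submodule.mem_span_pair]
  refine ⟨⟨_, hs⟩, ⟨r, hr⟩, ?_⟩
  change (b - r * x) * 1 + r * x = b
  ring

variable (π₁ π₂) in
/-- the maximal ideal of the glued ring -/
def JR : Ideal (π₁.eqLocus π₂) := RingHom.ker (π₁.comp (π₁.eqLocus π₂).subtype)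

lemma JR_max {x : B} (D : Data π₁ π₂ x) : (JR π₁ π₂).IsMaximal := by
  apply RingHom.ker_isMaximal_of_surjective
  intro γ
  obtain ⟨r, hr, h⟩ := surjR D γ
  exact ⟨⟨r, hr⟩, h⟩

lemma mem_JR (r : π₁.eqLocus π₂) : r ∈ JR π₁ π₂ ↔ π₁ r = 0 := Iff.rfl

lemma mem_JR' (r : π₁.eqLocus π₂) : r ∈ JR π₁ π₂ ↔ π₂ r = 0 := by
  rw [mem_JR, RingHom.mem_eqLocus.1 r.2]

theorem noeth [IsNoetherianRing B] {x : B} (D : Data π₁ π₂ x) :
    IsNoetherianRing (π₁.eqLocus π₂) := by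
  have hfin := finite D
  have hfg : ∀ I : Ideal B, (I.restrictScalars (π₁.eqLocus π₂)).FG := by
    intro I
    have : Module.Finite (π₁.eqLocus π₂) I := Module.Finite.trans B I
    exact Module.Finite.iff_fg.1 this
  have hB : IsNoetherian (π₁.eqLocus π₂) B := by
    refine ⟨fun N => ?_⟩
    let J : Ideal B := RingHom.ker π₁ ⊓ RingHom.ker π₂
    let M : Ideal B := Ideal.span (N : Set B)
    let K : Submodule (π₁.eqLocus π₂) B := (J * M).restrictScalars _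
    have hKN : K ≤ N := by
      intro a ha
      have ha' : a ∈ J * M := ha
      refine Submodule.mul_induction_on (C := fun b => b ∈ N) ha' ?_
        (fun _ _ h1 h2 => N.add_mem h1 h2)
      intro j hj m hm
      induction hm using Submodule.span_induction generalizing j with
      | mem n hn =>
        have := N.smul_mem ⟨j * 1, mem_of_J hj.1 hj.2 1⟩ hn
        change (j * 1) * n ∈ N at this
        simpa using this
      | zero => simp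
      | add a b _ _ ha hb => rw [mul_add]; exact N.add_mem (ha j hj) (hb j hj)
      | smul b m _ hm =>
        rw [smul_eq_mul, ← mul_assoc]
        exact hm _ (J.mul_mem_right b hj)
    have h1 : IsNoetherian (π₁.eqLocus π₂)
        ((M.restrictScalars (π₁.eqLocus π₂)).map K.mkQ) := by
      apply noeth_of_killed (JR π₁ π₂) (JR_max D) _ ((hfg M).map _)
      rintro _ ⟨m, hm, rfl⟩ j hj
      rw [← map_smul, Submodule.mkQ_apply, Submodule.Quotient.mk_eq_zero]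
      exact Ideal.mul_mem_mul (show (j : B) ∈ J from ⟨(mem_JR j).1 hj, (mem_JR' j).1 hj⟩) hm
    refine Submodule.fg_of_fg_map_of_fg_inf_ker K.mkQ ?_ ?_
    · refine isNoetherian_submodule.1 h1 _ (Submodule.map_mono ?_)
      intro n hn
      exact Ideal.subset_span hn
    · rw [Submodule.ker_mkQ, inf_eq_right.2 hKN]
      exact hfg _
  exact isNoetherian_of_injective (Algebra.linearMap (π₁.eqLocus π₂) B) Subtype.val_injective

variable (π₁ π₂) in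
/-- contraction of primes -/
def ct (Q : PrimeSpectrum B) : PrimeSpectrum (π₁.eqLocus π₂) :=
  PrimeSpectrum.comap (π₁.eqLocus π₂).subtype Q

lemma mem_ct (Q : PrimeSpectrum B) (r : π₁.eqLocus π₂) :
    r ∈ (ct π₁ π₂ Q).asIdeal ↔ (r : B) ∈ Q.asIdeal := Iff.rfl

lemma ct_mono {Q Q' : PrimeSpectrum B} (h : Q ≤ Q') : ct π₁ π₂ Q ≤ ct π₁ π₂ Q' :=
  fun _ hr => h hr

lemma le_of_ct {Q Q' : PrimeSpectrum B} {j : B} (h₁ : π₁ j = 0) (h₂ : π₂ j = 0)
    (hj : j ∉ Q'.asIdeal) (h : ct π₁ π₂ Q ≤ ct π₁ π₂ Q') : Q ≤ Q' := by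
  intro b hb
  have : (⟨j * b, mem_of_J h₁ h₂ b⟩ : π₁.eqLocus π₂) ∈ (ct π₁ π₂ Q).asIdeal :=
    Q.asIdeal.mul_mem_left j hb
  exact (Q'.isPrime.mem_or_mem (h this)).resolve_left hj

theorem covR [IsDomain B] {x : B} (D : Data π₁ π₂ x) (Q₀ Q₁ : PrimeSpectrum B) (hlt : Q₀ < Q₁)
    {j : B} (h₁ : π₁ j = 0) (h₂ : π₂ j = 0) (hj : j ∉ Q₀.asIdeal)
    (H : ∀ Q : PrimeSpectrum B, Q₀ < Q → ct π₁ π₂ Q < ct π₁ π₂ Q₁ → False) :
    ct π₁ π₂ Q₀ ⋖ ct π₁ π₂ Q₁ := by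
  have hfin := finite D
  refine ⟨lt_of_le_not_ge (ct_mono hlt.le) fun h => hlt.not_ge (le_of_ct h₁ h₂ hj h),
    fun q h0 h1 => ?_⟩
  have := q.isPrime
  obtain ⟨Q, hQ, hQq⟩ := Ideal.exists_ideal_over_prime_of_isIntegral_of_isDomain (S := B)
    q.asIdeal (by
      rw [(RingHom.injective_iff_ker_eq_bot _).1 Subtype.val_injective]; exact bot_le)
  have e : ct π₁ π₂ ⟨Q, hQ⟩ = q := PrimeSpectrum.ext hQq
  by_cases hJ : JR π₁ π₂ ≤ q.asIdeal
  · have h3 : JR π₁ π₂ = (ct π₁ π₂ Q₁).asIdeal :=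
      (JR_max D).eq_of_le (ct π₁ π₂ Q₁).isPrime.ne_top (hJ.trans h1.le)
    apply h1.not_ge
    change (ct π₁ π₂ Q₁).asIdeal ≤ q.asIdeal
    rw [← h3]
    exact hJ
  · obtain ⟨j', hj', hj'q⟩ := SetLike.not_le_iff_exists.1 hJ
    have h4 : Q₀ ≤ ⟨Q, hQ⟩ :=
      le_of_ct ((mem_JR j').1 hj') ((mem_JR' j').1 hj') (by rw [← e] at hj'q; exact hj'q)
        (by rw [e]; exact h0.le)
    refine H ⟨Q, hQ⟩ (lt_of_le_of_ne h4 ?_) (by rw [e]; exact h1)
    intro h5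
    rw [h5, e] at h0
    exact lt_irrefl _ h0

theorem covR₁ [IsDomain B] {x : B} (D : Data π₁ π₂ x) {Q₀ Q₁ : PrimeSpectrum B} (hc : Q₀ ⋖ Q₁)
    {j : B} (h₁ : π₁ j = 0) (h₂ : π₂ j = 0) (hj : j ∉ Q₁.asIdeal) :
    ct π₁ π₂ Q₀ ⋖ ct π₁ π₂ Q₁ := by
  refine covR D Q₀ Q₁ hc.lt h₁ h₂ (fun h => hj (hc.le h)) fun Q h0 h1 => ?_
  refine hc.2 h0 (lt_of_le_of_ne (le_of_ct h₁ h₂ hj h1.le) ?_)
  rintro rfl
  exact lt_irrefl _ h1

theorem covR₂ [IsDomain B] {x : B} (D : Data π₁ π₂ x) {Q₀ Q₁ Q₂ : PrimeSpectrum B} (hc : Q₀ ⋖ Q₁)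
    {j : B} (h₁ : π₁ j = 0) (h₂ : π₂ j = 0) (hj : j ∉ Q₀.asIdeal)
    (hall : ∀ Q : PrimeSpectrum B, Q ≤ Q₁ ∨ Q ≤ Q₂) (hn : ¬ Q₀ ≤ Q₂) :
    ct π₁ π₂ Q₀ ⋖ ct π₁ π₂ Q₁ := by
  refine covR D Q₀ Q₁ hc.lt h₁ h₂ hj fun Q h0 h1 => ?_
  rcases hall Q with h | h
  · refine hc.2 h0 (lt_of_le_of_ne h ?_)
    rintro rfl
    exact lt_irrefl _ h1
  · exact hn (h0.le.trans h)

end Pool.Agent.H604Z.Glue
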