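import Mathlib

set_option autoImplicit false

namespace Pool.Agent.H604Z.Solid

open Finset

variable {k Ω : Type*} [Field k] [Field Ω] [Algebra k Ω] {σ : Type*} [Fintype σ]

/-- Laurent monomial -/
def mono (x : σ → Ω) (m : σ → ℤ) : Ω := ∏ i, x i ^ m i

lemma mono_add {x : σ → Ω} (hx : ∀ i, x i ≠ 0) (m n : σ → ℤ) :
    mono x (m + n) = mono x m * mono x n := by
  simp only [mono, Pi.add_apply, ← Finset.prod_mul_distrib]
  exact Finset.prod_congr rfl fun i _ => zpow_add₀ (hx i) _ _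

lemma mono_zero (x : σ → Ω) : mono x 0 = 1 := by simp [mono]

lemma mono_ne_zero {x : σ → Ω} (hx : ∀ i, x i ≠ 0) (m : σ → ℤ) : mono x m ≠ 0 :=
  Finset.prod_ne_zero_iff.2 fun i _ => zpow_ne_zero _ (hx i)

lemma mono_nsmul {x : σ → Ω} (hx : ∀ i, x i ≠ 0) (q : ℕ) (m : σ → ℤ) :
    mono x (q • m) = mono x m ^ q := by
  induction q with
  | zero => simp [mono_zero]
  | succ q ih => rw [succ_nsmul, mono_add hx, ih, pow_succ]

variable (k) in
/-- span of the monomials with exponents in `E` -/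
def Sp (x : σ → Ω) (E : Set (σ → ℤ)) : Submodule k Ω := Submodule.span k (mono x '' E)

lemma mono_mem {x : σ → Ω} {E : Set (σ → ℤ)} {m : σ → ℤ} (h : m ∈ E) : mono x m ∈ Sp k x E :=
  Submodule.subset_span ⟨m, h, rfl⟩

lemma Sp_mono {x : σ → Ω} {E F : Set (σ → ℤ)} (h : E ⊆ F) : Sp k x E ≤ Sp k x F :=
  Submodule.span_mono (Set.image_mono h)

lemma Sp_mul {x : σ → Ω} (hx : ∀ i, x i ≠ 0) {E F G : Set (σ → ℤ)}
    (h : ∀ e ∈ E, ∀ f ∈ F, e + f ∈ G) {a b : Ω} (ha : a ∈ Sp k x E) (hb : b ∈ Sp k x F) :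
    a * b ∈ Sp k x G := by
  have := Submodule.mul_mem_mul ha hb
  unfold Sp at this
  rw [Submodule.span_mul_span] at this
  refine Submodule.span_mono ?_ this
  rintro _ ⟨_, ⟨e, he, rfl⟩, _, ⟨f, hf, rfl⟩, rfl⟩
  exact ⟨e + f, h e he f hf, mono_add hx e f⟩

lemma exists_finset {x : σ → Ω} {a : Ω} (ha : a ∈ Sp k x Set.univ) :
    ∃ F : Finset (σ → ℤ), a ∈ Sp k x F := by
  classical
  induction ha using Submodule.span_induction with
  | mem a h =>
    obtain ⟨m, -, rfl⟩ := h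
    exact ⟨{m}, mono_mem (by simp)⟩
  | zero => exact ⟨∅, Submodule.zero_mem _⟩
  | add a b _ _ ha hb =>
    obtain ⟨F, hF⟩ := ha
    obtain ⟨G, hG⟩ := hb
    refine ⟨F ∪ G, Submodule.add_mem _ (Sp_mono (by simp) hF) (Sp_mono (by simp) hG)⟩
  | smul c a _ ha =>
    obtain ⟨F, hF⟩ := ha
    exact ⟨F, Submodule.smul_mem _ _ hF⟩

/-- half space of exponents -/
def half (l : (σ → ℤ) →+ ℤ) (N : ℤ) : Set (σ → ℤ) := {m | N ≤ l m}

lemma exists_half {x : σ → Ω} {a : Ω} (ha : a ∈ Sp k x Set.univ) (l : (σ → ℤ) →+ ℤ) :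
    ∃ N, a ∈ Sp k x (half l N) := by
  obtain ⟨F, hF⟩ := exists_finset ha
  obtain ⟨N, hN⟩ := (F.image l).bddBelow
  refine ⟨N, Sp_mono ?_ hF⟩
  intro m hm
  exact hN (by simpa using ⟨m, hm, rfl⟩)

lemma half_mul {x : σ → Ω} (hx : ∀ i, x i ≠ 0) {l : (σ → ℤ) →+ ℤ} {M N : ℤ} {a b : Ω}
    (ha : a ∈ Sp k x (half l M)) (hb : b ∈ Sp k x (half l N)) :
    a * b ∈ Sp k x (half l (M + N)) := by
  refine Sp_mul hx ?_ ha hb
  intro e he f hf
  simp only [half, Set.mem_ofPred_eq, map_add] at *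
  linarith

lemma half_anti {x : σ → Ω} {l : (σ → ℤ) →+ ℤ} {M N : ℤ} (h : M ≤ N) :
    Sp k x (half l N) ≤ Sp k x (half l M) :=
  Sp_mono fun _ hm => le_trans h hm

lemma univ_mul {x : σ → Ω} (hx : ∀ i, x i ≠ 0) {a b : Ω}
    (ha : a ∈ Sp k x Set.univ) (hb : b ∈ Sp k x Set.univ) : a * b ∈ Sp k x Set.univ :=
  Sp_mul hx (fun _ _ _ _ => Set.mem_univ _) ha hb

variable (k) in
/-- the ring of Laurent polynomials with exponents in a half space -/
def rg {x : σ → Ω} (hx : ∀ i, x i ≠ 0) (l : (σ → ℤ) →+ ℤ) : Subalgebra k Ω :=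
  (Sp k x (half l 0)).toSubalgebra
    (by rw [← mono_zero x]; exact mono_mem (by simp [half]))
    (fun a b ha hb => by simpa using half_mul hx ha hb)

lemma mem_rg {x : σ → Ω} (hx : ∀ i, x i ≠ 0) (l : (σ → ℤ) →+ ℤ) (a : Ω) :
    a ∈ rg k hx l ↔ a ∈ Sp k x (half l 0) := Iff.rfl

lemma exists_T {x : σ → Ω} (hx : ∀ i, x i ≠ 0) : ∃ T : Ω →+ Ω, T 1 = 1 ∧
    (∀ a ∈ Sp k x Set.univ, ∀ z, T (a * z) = a * T z) ∧
    ∀ z, ∃ c ∈ Sp k x Set.univ, c ≠ 0 ∧ c * T z ∈ Sp k x Set.univ := by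
  let K : Subfield Ω := Subfield.closure (rg k hx 0 : Set Ω)
  have huniv : half (0 : (σ → ℤ) →+ ℤ) 0 = Set.univ := by ext; simp [half]
  obtain ⟨T, hT⟩ := Module.Projective.exists_dual_eq_one K (one_ne_zero : (1 : Ω) ≠ 0)
  refine ⟨(K.subtype.toAddMonoidHom).comp T.toAddMonoidHom, by simp [hT], ?_, ?_⟩
  · intro a ha z
    have haK : a ∈ K := Subfield.subset_closure (by rw [SetLike.mem_coe, mem_rg, huniv]; exact ha)
    have := T.map_smul ⟨a, haK⟩ z
    have e : (⟨a, haK⟩ : K) • z = a * z := rfl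
    rw [e] at this
    simp [this]
  · intro z
    obtain ⟨a, ha, b, hb, hab⟩ := Subfield.mem_closure_iff.1 (T z).2
    have hcl : Subring.closure (rg k hx 0 : Set Ω) = (rg k hx 0).toSubring :=
      Subring.closure_eq (rg k hx 0).toSubring
    rw [hcl] at ha hb
    have ha' : a ∈ Sp k x Set.univ := by rw [← huniv]; exact ha
    have hb' : b ∈ Sp k x Set.univ := by rw [← huniv]; exact hb
    by_cases h0 : b = 0
    · refine ⟨1, by rw [← mono_zero x]; exact mono_mem (Set.mem_univ _), one_ne_zero, ?_⟩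
      have : ((T z : K) : Ω) = 0 := by rw [← hab, h0, div_zero]
      simp [this]
    · refine ⟨b, hb', h0, ?_⟩
      have : b * ((T z : K) : Ω) = a := by rw [← hab]; field_simp
      simpa [this] using ha'

lemma bounded {x : σ → Ω} (hx : ∀ i, x i ≠ 0) (T : Ω →+ Ω)
    (hT1 : ∀ a ∈ Sp k x Set.univ, ∀ z, T (a * z) = a * T z)
    (hT2 : ∀ z, ∃ c ∈ Sp k x Set.univ, c ≠ 0 ∧ c * T z ∈ Sp k x Set.univ)
    (l : (σ → ℤ) →+ ℤ) (M : Submodule (rg k hx l) Ω) (hM : M.FG) :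
    ∃ c ∈ Sp k x Set.univ, c ≠ 0 ∧ ∃ N, ∀ z ∈ M, c * T z ∈ Sp k x (half l N) := by
  induction M, hM using Submodule.fg_induction with
  | singleton w =>
    obtain ⟨c, hc, hc0, hcw⟩ := hT2 w
    obtain ⟨N, hN⟩ := exists_half hcw l
    refine ⟨c, hc, hc0, N, fun z hz => ?_⟩
    obtain ⟨a, rfl⟩ := Submodule.mem_span_singleton.1 hz
    have e : a • w = (a : Ω) * w := rfl
    rw [e, hT1 a (Sp_mono (Set.subset_univ _) a.2)]
    have := half_mul hx ((mem_rg hx l a).1 a.2) hN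
    rw [zero_add] at this
    convert this using 1
    ring
  | sup M₁ M₂ _ _ h₁ h₂ =>
    obtain ⟨c₁, hc₁, hc₁0, N₁, hN₁⟩ := h₁
    obtain ⟨c₂, hc₂, hc₂0, N₂, hN₂⟩ := h₂
    obtain ⟨L₁, hL₁⟩ := exists_half hc₁ l
    obtain ⟨L₂, hL₂⟩ := exists_half hc₂ l
    refine ⟨c₁ * c₂, univ_mul hx hc₁ hc₂, mul_ne_zero hc₁0 hc₂0, min (L₂ + N₁) (L₁ + N₂),
      fun z hz => ?_⟩
    obtain ⟨y₁, hy₁, y₂, hy₂, rfl⟩ := Submodule.mem_sup.1 hz
    have e : c₁ * c₂ * T (y₁ + y₂) = c₂ * (c₁ * T y₁) + c₁ * (c₂ * T y₂) := by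
      rw [map_add]; ring
    rw [e]
    exact Submodule.add_mem _ (half_anti (min_le_left _ _) (half_mul hx hL₂ (hN₁ _ hy₁)))
      (half_anti (min_le_right _ _) (half_mul hx hL₁ (hN₂ _ hy₂)))

theorem not_mem_sum (p : ℕ) [Fact p.Prime] [CharP Ω p] {x : σ → Ω} (hx : ∀ i, x i ≠ 0)
    (hli : LinearIndependent k (mono x)) {ι : Type*} [Fintype ι] (l : ι → (σ → ℤ) →+ ℤ)
    (g : ι → σ → ℤ) (m₀ : σ → ℤ) (hm : ∀ j, l j m₀ < l j (g j)) (w : ι → Ω)
    (hw : ∀ j, IsIntegral (rg k hx (l j)) (w j)) : mono x m₀ ≠ ∑ j, mono x (g j) * w j := by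
  classical
  intro heq
  obtain ⟨T, hT0, hT1, hT2⟩ := exists_T (k := k) hx
  have h1 : ∀ j, ∃ c ∈ Sp k x Set.univ, c ≠ 0 ∧ ∃ N, ∀ q : ℕ,
      c * T (w j ^ q) ∈ Sp k x (half (l j) N) := by
    intro j
    obtain ⟨c, hc, hc0, N, hN⟩ := bounded hx T hT1 hT2 (l j) _ (hw j).fg_adjoin_singleton
    exact ⟨c, hc, hc0, N, fun q => hN _
      (Subalgebra.pow_mem _ (Algebra.subset_adjoin (Set.mem_singleton _)) q)⟩
  choose c hc hc0 N hN using h1
  have hprod : ∀ s : Finset ι, ∏ j ∈ s, c j ∈ Sp k x Set.univ := by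
    intro s
    induction s using Finset.induction_on with
    | empty => rw [Finset.prod_empty, ← mono_zero x]; exact mono_mem (Set.mem_univ _)
    | insert a s ha ih => rw [Finset.prod_insert ha]; exact univ_mul hx (hc a) ih
  have h2 : ∀ j, ∃ N', ∀ q : ℕ, (∏ j, c j) * T (w j ^ q) ∈ Sp k x (half (l j) N') := by
    intro j
    obtain ⟨L, hL⟩ := exists_half (hprod (Finset.univ.erase j)) (l j)
    refine ⟨L + N j, fun q => ?_⟩
    rw [← Finset.prod_erase_mul _ _ (Finset.mem_univ j), mul_assoc]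
    exact half_mul hx hL (hN j q)
  choose N' hN' using h2
  obtain ⟨F, hF⟩ := exists_finset (hprod Finset.univ)
  obtain ⟨B, hB⟩ := ((F ×ˢ (Finset.univ : Finset ι)).image (fun a => l a.2 a.1 - N' a.2)).bddAbove
  obtain ⟨e, he⟩ : ∃ e : ℕ, B < (p : ℤ) ^ e := by
    have : (1 : ℤ) < p := by exact_mod_cast (Fact.out : p.Prime).one_lt
    exact pow_unbounded_of_one_lt B this
  set q := p ^ e with hq
  have hBq : B < (q : ℤ) := by rw [hq]; exact_mod_cast he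
  have e1 : mono x (q • m₀) = ∑ j, mono x (q • g j) * w j ^ q := by
    rw [mono_nsmul hx, heq, hq, sum_pow_char_pow]
    refine Finset.sum_congr rfl fun j _ => ?_
    rw [mul_pow, mono_nsmul hx]
  have e2 : (∏ j, c j) * mono x (q • m₀) =
      ∑ j, mono x (q • g j) * ((∏ j, c j) * T (w j ^ q)) := by
    have : T (mono x (q • m₀)) = mono x (q • m₀) := by
      have := hT1 _ (mono_mem (k := k) (x := x) (Set.mem_univ (q • m₀))) 1
      rwa [mul_one, hT0, mul_one] at this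
    rw [← this, e1, map_sum, Finset.mul_sum]
    refine Finset.sum_congr rfl fun j _ => ?_
    rw [hT1 _ (mono_mem (Set.mem_univ _))]
    ring
  let E₁ : Set (σ → ℤ) := {m | ∀ j, l j m < q * l j (g j) + N' j}
  have a1 : (∏ j, c j) * mono x (q • m₀) ∈ Sp k x E₁ := by
    refine Sp_mul hx ?_ hF (mono_mem (Set.mem_singleton (q • m₀)))
    intro f hf m hm' j
    rw [Set.mem_singleton_iff.1 hm', map_add, map_nsmul, nsmul_eq_mul]
    have b1 : l j f - N' j ≤ B := hB (by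
      simp only [Finset.coe_image, Set.mem_image, Finset.mem_coe, Finset.mem_product,
        Finset.mem_univ, and_true]
      exact ⟨(f, j), hf, rfl⟩)
    have b2 : l j m₀ + 1 ≤ l j (g j) := hm j
    have b3 : (q : ℤ) * (l j m₀ + 1) ≤ q * l j (g j) :=
      mul_le_mul_of_nonneg_left b2 (by positivity)
    linarith
  have a2 : (∏ j, c j) * mono x (q • m₀) ∈ Sp k x E₁ᶜ := by
    rw [e2]
    refine Submodule.sum_mem _ fun j _ => ?_
    refine Sp_mul hx ?_ (mono_mem (Set.mem_singleton (q • g j))) (hN' j q)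
    intro m hm' f hf hE
    have := hE j
    rw [Set.mem_singleton_iff.1 hm', map_add, map_nsmul, nsmul_eq_mul] at this
    have b : N' j ≤ l j f := hf
    linarith
  have a3 := (Submodule.disjoint_def.1 (hli.disjoint_span_image disjoint_compl_right)) _ a1 a2
  exact mul_ne_zero (Finset.prod_ne_zero_iff.2 fun j _ => hc0 j) (mono_ne_zero hx _) a3

end Pool.Agent.H604Z.Solid
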