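import Mathlib
import Pool.Agent.H604Z.SolidA

set_option autoImplicit false

namespace Pool.Agent.H604Z.Solid

open Finset Polynomial

section

variable {k Ω : Type*} [Field k] [Field Ω] [Algebra k Ω]

lemma integral_of_coeff (S : Subalgebra k Ω) (P : Polynomial Ω) (hP : ∀ n, P.coeff n ∈ S) (r : Ω)
    (hr : P.eval r = 0) : IsIntegral S (P.leadingCoeff * r) := by
  have h1 : P ∈ Polynomial.lifts (algebraMap S Ω) := by
    rw [Polynomial.lifts_iff_coeff_lifts]
    intro n
    exact ⟨⟨_, hP n⟩, rfl⟩
  obtain ⟨Q, hQ⟩ := (Polynomial.mem_lifts P).1 h1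
  have h2 : Polynomial.aeval r Q = 0 := by
    rw [Polynomial.aeval_def, ← Polynomial.eval_map, hQ, hr]
  have h3 := isIntegral_leadingCoeff_smul Q r h2
  rw [Algebra.smul_def, ← Polynomial.leadingCoeff_map_of_injective Subtype.val_injective] at h3
  rw [← hQ]
  exact h3

end

variable {k Ω : Type*} [Field k] [Field Ω] [Algebra k Ω] {σ : Type*} [Fintype σ]
  [Algebra (MvPolynomial σ k) Ω] [IsScalarTower k (MvPolynomial σ k) Ω]

variable (k Ω) in
/-- images of the variables -/
noncomputable def xx : σ → Ω := fun i => algebraMap (MvPolynomial σ k) Ω (MvPolynomial.X i)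

omit [Algebra k Ω] [Fintype σ] [IsScalarTower k (MvPolynomial σ k) Ω] in
lemma xx_ne (inj : Function.Injective (algebraMap (MvPolynomial σ k) Ω)) (i : σ) :
    xx k Ω i ≠ 0 := by
  intro h
  apply MvPolynomial.X_ne_zero (R := k) i
  apply inj
  rw [map_zero]
  exact h

lemma map_monomial (a : σ →₀ ℕ) (c : k) :
    algebraMap (MvPolynomial σ k) Ω (MvPolynomial.monomial a c) =
      c • mono (xx k Ω) (fun i => (a i : ℤ)) := by
  rw [MvPolynomial.monomial_eq, map_mul, Algebra.smul_def, IsScalarTower.algebraMap_apply k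
    (MvPolynomial σ k) Ω, MvPolynomial.algebraMap_eq]
  congr 1
  rw [Finsupp.prod_fintype _ _ (fun _ => pow_zero _), map_prod]
  simp [mono, xx]

lemma map_mem (f : MvPolynomial σ k) :
    algebraMap (MvPolynomial σ k) Ω f ∈ Sp k (xx k Ω) {m : σ → ℤ | ∀ i, 0 ≤ m i} := by
  rw [f.as_sum, map_sum]
  refine Submodule.sum_mem _ fun a _ => ?_
  rw [map_monomial]
  exact Submodule.smul_mem _ _ (mono_mem fun i => by positivity)

lemma li (inj : Function.Injective (algebraMap (MvPolynomial σ k) Ω)) :
    LinearIndependent k (mono (xx k Ω : σ → Ω)) := by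
  classical
  have hx := xx_ne inj
  have h0 : LinearIndependent k (fun a : σ →₀ ℕ => mono (xx k Ω) (fun i => (a i : ℤ))) := by
    have := (MvPolynomial.basisMonomials σ k).linearIndependent.map'
      (IsScalarTower.toAlgHom k (MvPolynomial σ k) Ω).toLinearMap
      (LinearMap.ker_eq_bot.2 inj)
    have e : (fun a : σ →₀ ℕ => mono (xx k Ω) (fun i => (a i : ℤ))) =
        (⇑(IsScalarTower.toAlgHom k (MvPolynomial σ k) Ω).toLinearMap ∘
          ⇑(MvPolynomial.basisMonomials σ k)) := by
      ext a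
      simp [map_monomial]
    rw [e]
    exact this
  rw [linearIndependent_iff']
  intro s g hg
  obtain ⟨N, hN⟩ := ((s ×ˢ (Finset.univ : Finset σ)).image (fun a => a.1 a.2)).bddBelow
  have hN' : ∀ m ∈ s, ∀ i, N ≤ m i := fun m hm i => hN (by
    simp only [Finset.coe_image, Set.mem_image, Finset.mem_coe, Finset.mem_product,
      Finset.mem_univ, and_true]
    exact ⟨(m, i), hm, rfl⟩)
  let u : s → (σ →₀ ℕ) := fun m => Finsupp.equivFunOnFinite.symm fun i => (m.1 i - N).toNat
  have hu : ∀ m : s, (fun i => ((u m i : ℕ) : ℤ)) = (fun _ => -N) + m.1 := by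
    intro m
    ext i
    have := hN' m.1 m.2 i
    simp only [u, Finsupp.equivFunOnFinite_symm_apply_apply, Pi.add_apply]
    omega
  have hinj : Function.Injective u := by
    intro m m' h
    have h1 := hu m
    rw [h, hu m'] at h1
    exact Subtype.ext (add_left_cancel h1).symm
  have h1 := Fintype.linearIndependent_iff.1 (h0.comp u hinj) (fun m => g m.1) (by
    simp only [Function.comp, hu, mono_add hx]
    have : ∑ m : s, g m.1 • (mono (xx k Ω) (fun _ : σ => -N) * mono (xx k Ω) m.1) =
        mono (xx k Ω) (fun _ : σ => -N) * ∑ m ∈ s, g m • mono (xx k Ω) m := by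
      rw [Finset.mul_sum, ← Finset.sum_coe_sort s]
      exact Finset.sum_congr rfl fun m _ => (mul_smul_comm _ _ _).symm
    exact this.trans (by rw [hg, mul_zero]))
  intro m hm
  exact h1 ⟨m, hm⟩

/-- coordinate functional -/
def ev (i : σ) : (σ → ℤ) →+ ℤ := Pi.evalAddMonoidHom (fun _ => ℤ) i

omit [Fintype σ] in
@[simp] lemma ev_apply (i : σ) (m : σ → ℤ) : ev i m = m i := rfl

lemma int_pos (inj : Function.Injective (algebraMap (MvPolynomial σ k) Ω)) (i : σ) (r : Ω)
    (hr : IsIntegral (MvPolynomial σ k) r) : IsIntegral (rg k (xx_ne inj) (ev i)) r := by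
  obtain ⟨P, hP, hPr⟩ := hr
  have := integral_of_coeff (rg k (xx_ne inj) (ev i)) (P.map (algebraMap _ Ω)) (by
    intro n
    rw [Polynomial.coeff_map, mem_rg]
    refine Sp_mono ?_ (map_mem _)
    intro m hm
    exact hm i) r (by rw [Polynomial.eval_map]; exact hPr)
  rwa [(hP.map _).leadingCoeff, one_mul] at this

lemma int_neg (inj : Function.Injective (algebraMap (MvPolynomial σ k) Ω)) (i : σ) (r : Ω)
    (hr : IsIntegral (MvPolynomial σ k) r) :
    ∃ N : ℤ, IsIntegral (rg k (xx_ne inj) (-ev i)) (mono (xx k Ω) (fun _ : σ => N) * r) := by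
  classical
  obtain ⟨P, hP, hPr⟩ := hr
  have h1 : ∀ n, ∃ N, algebraMap _ Ω (P.coeff n) ∈ Sp k (xx k Ω) (half (-ev i) N) :=
    fun n => exists_half (Sp_mono (Set.subset_univ _) (map_mem _)) _
  choose N hN using h1
  obtain ⟨B, hB⟩ := (P.support.image N).bddBelow
  refine ⟨B, ?_⟩
  have := integral_of_coeff (rg k (xx_ne inj) (-ev i))
    (C (mono (xx k Ω) (fun _ : σ => B)) * P.map (algebraMap _ Ω)) (by
    intro n
    rw [Polynomial.coeff_C_mul, Polynomial.coeff_map, mem_rg]
    by_cases hn : n ∈ P.support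
    · have h2 : B ≤ N n := hB (by simpa using ⟨n, by simpa using hn, rfl⟩)
      have h3 : mono (xx k Ω) (fun _ : σ => B) ∈ Sp k (xx k Ω) (half (-ev i) (-B)) :=
        mono_mem (by simp [half])
      exact half_anti (by linarith) (half_mul (xx_ne inj) h3 (hN n))
    · rw [Polynomial.notMem_support_iff.1 hn, map_zero, mul_zero]
      exact Submodule.zero_mem _) r (by
      rw [Polynomial.eval_mul, Polynomial.eval_map, hPr, mul_zero])
  rwa [Polynomial.leadingCoeff_mul, (hP.map _).leadingCoeff, mul_one,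
    Polynomial.leadingCoeff_C] at this

theorem exists_lam (p : ℕ) [Fact p.Prime] [CharP Ω p]
    (inj : Function.Injective (algebraMap (MvPolynomial σ k) Ω)) :
    ∃ lam : Ω →ₗ[k] k, lam (mono (xx k Ω) (fun _ : σ => -1)) ≠ 0 ∧
      (∀ i : σ, ∀ w, IsIntegral (rg k (xx_ne inj) (ev i)) w → lam w = 0) ∧
      (∀ i : σ, ∀ w, IsIntegral (rg k (xx_ne inj) (-ev i)) w →
        lam (mono (xx k Ω) (fun _ : σ => -2) * w) = 0) := by
  classical
  let l : σ ⊕ σ → (σ → ℤ) →+ ℤ := Sum.elim (fun i => ev i) (fun i => -ev i)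
  let g : σ ⊕ σ → σ → ℤ := Sum.elim (fun _ => 0) (fun _ _ => -2)
  let W : Submodule k Ω :=
    { carrier := {z | ∃ w : σ ⊕ σ → Ω, (∀ j, IsIntegral (rg k (xx_ne inj) (l j)) (w j)) ∧
        z = ∑ j, mono (xx k Ω) (g j) * w j}
      add_mem' := by
        rintro _ _ ⟨w, hw, rfl⟩ ⟨w', hw', rfl⟩
        refine ⟨w + w', fun j => (hw j).add (hw' j), ?_⟩
        simp [mul_add, Finset.sum_add_distrib]
      zero_mem' := ⟨0, fun j => isIntegral_zero, by simp⟩
      smul_mem' := by
        rintro c _ ⟨w, hw, rfl⟩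
        refine ⟨c • w, fun j => (hw j).smul c, ?_⟩
        simp [Finset.smul_sum] }
  have hW : mono (xx k Ω) (fun _ : σ => -1) ∉ W := by
    rintro ⟨w, hw, h⟩
    refine not_mem_sum p (xx_ne inj) (li inj) l g _ ?_ w hw h
    rintro (i | i) <;> simp [l, g]
  obtain ⟨lam, h1, h2⟩ := Submodule.exists_dual_map_eq_bot_of_notMem hW inferInstance
  have h3 : ∀ j w, IsIntegral (rg k (xx_ne inj) (l j)) w → lam (mono (xx k Ω) (g j) * w) = 0 := by
    intro j w hw
    have : mono (xx k Ω) (g j) * w ∈ W := by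
      refine ⟨Pi.single j w, fun j' => ?_, ?_⟩
      · by_cases h : j' = j
        · subst h; simpa using hw
        · rw [Pi.single_eq_of_ne h]; exact isIntegral_zero
      · rw [Finset.sum_eq_single j]
        · simp
        · intro b _ hb; rw [Pi.single_eq_of_ne hb, mul_zero]
        · simp
    have h4 := Submodule.mem_map_of_mem (f := lam) this
    rw [h2] at h4
    exact h4
  refine ⟨lam, h1, fun i w hw => ?_, fun i w hw => h3 (Sum.inr i) w hw⟩
  have := h3 (Sum.inl i) w hw
  simpa [g, mono_zero] using this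

theorem solid_mv (p : ℕ) [Fact p.Prime] [CharP Ω p]
    (inj : Function.Injective (algebraMap (MvPolynomial σ k) Ω)) :
    ∃ φ : integralClosure (MvPolynomial σ k) Ω →ₗ[MvPolynomial σ k] MvPolynomial σ k,
      φ 1 ≠ 0 := by
  classical
  have hx := xx_ne inj
  obtain ⟨lam, h0, h1, h2⟩ := exists_lam p inj
  let co : Ω → (σ →₀ ℕ) → k := fun r a => lam (mono (xx k Ω) (fun i => -(a i : ℤ) - 1) * r)
  have hfin : ∀ r : integralClosure (MvPolynomial σ k) Ω, (Function.support (co r)).Finite := by
    intro r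
    choose N hN using fun i => int_neg inj i r r.2
    let b : σ →₀ ℕ := Finsupp.equivFunOnFinite.symm fun i => (1 - N i).toNat
    refine (Set.finite_Iic b).subset ?_
    intro a ha i
    by_contra hlt
    apply ha
    have hlt' : 1 - N i < a i := by
      simp only [b, Finsupp.equivFunOnFinite_symm_apply_apply] at hlt
      omega
    have e : mono (xx k Ω) (fun i => -(a i : ℤ) - 1) * (r : Ω) =
        mono (xx k Ω) (fun _ : σ => -2) * (mono (xx k Ω) (fun j => 1 - (a j : ℤ) - N i) *
          (mono (xx k Ω) (fun _ : σ => N i) * r)) := by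
      rw [← mul_assoc, ← mul_assoc, ← mono_add hx, ← mono_add hx]
      congr 2
      ext j
      simp only [Pi.add_apply]
      ring
    simp only [co]
    rw [e]
    apply h2 i
    refine IsIntegral.mul ?_ (hN i)
    have : mono (xx k Ω) (fun j => 1 - (a j : ℤ) - N i) ∈ rg k hx (-ev i) :=
      mono_mem (by simp [half]; linarith)
    exact isIntegral_algebraMap (x := (⟨_, this⟩ : rg k hx (-ev i)))
  let φ₀ : integralClosure (MvPolynomial σ k) Ω → MvPolynomial σ k :=
    fun r => ∑ a ∈ (hfin r).toFinset, MvPolynomial.monomial a (co r a)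
  have hφ : ∀ r a, MvPolynomial.coeff a (φ₀ r) = co r a := by
    intro r a
    simp only [φ₀, MvPolynomial.coeff_sum, MvPolynomial.coeff_monomial]
    rw [Finset.sum_ite_eq']
    split_ifs with h
    · rfl
    · symm
      simpa using h
  have hadd : ∀ r s, φ₀ (r + s) = φ₀ r + φ₀ s := by
    intro r s
    ext a
    simp [hφ, co, mul_add]
  have hX : ∀ (i : σ) r, φ₀ ((MvPolynomial.X i : MvPolynomial σ k) • r) =
      MvPolynomial.X i * φ₀ r := by
    intro i r
    ext a
    have e0 : (((MvPolynomial.X i : MvPolynomial σ k) • r : integralClosure (MvPolynomial σ k) Ω) : Ω)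
        = mono (xx k Ω) (Pi.single i 1) * r := by
      rw [Subalgebra.coe_smul, Algebra.smul_def]
      congr 1
      simp only [mono]
      rw [Finset.prod_eq_single i]
      · simp [xx]
      · intro j _ hj; simp [Pi.single_eq_of_ne hj]
      · simp
    rw [MvPolynomial.coeff_X_mul', hφ, hφ]
    simp only [co]
    rw [e0, ← mul_assoc, ← mono_add hx]
    split_ifs with h
    · congr 3
      ext j
      have hi : a i ≠ 0 := Finsupp.mem_support_iff.1 h
      by_cases hj : j = i
      · subst hj
        simp only [Pi.add_apply, Pi.single_eq_same, Finsupp.coe_tsub, Pi.sub_apply,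
          Finsupp.single_eq_same]
        omega
      · simp [Pi.single_eq_of_ne hj, Finsupp.single_eq_of_ne hj]
    · apply h1 i
      refine IsIntegral.mul ?_ (int_pos inj i r r.2)
      have hi : a i = 0 := Finsupp.notMem_support_iff.1 h
      have : mono (xx k Ω) ((fun i => -(a i : ℤ) - 1) + Pi.single i 1) ∈ rg k hx (ev i) :=
        mono_mem (by simp [half, hi])
      exact isIntegral_algebraMap (x := (⟨_, this⟩ : rg k hx (ev i)))
  have hsmul : ∀ (f : MvPolynomial σ k) r, φ₀ (f • r) = f * φ₀ r := by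
    intro f
    induction f using MvPolynomial.induction_on with
    | C c =>
      intro r
      ext a
      have e0 : (((MvPolynomial.C c : MvPolynomial σ k) • r :
          integralClosure (MvPolynomial σ k) Ω) : Ω) = c • (r : Ω) := by
        rw [Subalgebra.coe_smul, ← MvPolynomial.algebraMap_eq, algebraMap_smul]
      rw [MvPolynomial.coeff_C_mul, hφ, hφ]
      simp only [co]
      rw [e0, mul_smul_comm, map_smul, smul_eq_mul]
    | add f g hf hg => intro r; rw [add_smul, hadd, hf, hg, add_mul]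
    | mul_X f i hf => intro r; rw [mul_smul, hf, hX, mul_assoc]
  refine ⟨{ toFun := φ₀, map_add' := hadd, map_smul' := hsmul }, fun h => h0 ?_⟩
  have := hφ 1 0
  have h' : φ₀ 1 = 0 := h
  rw [h'] at this
  simpa [co] using this.symm

end Pool.Agent.H604Z.Solid
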