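import Mathlib
import Pool.Agent.H604Z.SolidB

set_option autoImplicit false

namespace Pool.Agent.H604Z.Solid

/-- a linear map from the integral closure that does not kill `1` -/
def Sol (R Ω : Type*) [CommRing R] [CommRing Ω] [Algebra R Ω] : Prop :=
  ∃ φ : integralClosure R Ω →ₗ[R] R, φ 1 ≠ 0

theorem sol_equiv {A' A Ω : Type*} [CommRing A'] [CommRing A] [CommRing Ω] [Algebra A Ω]
    [Algebra A' Ω] (e : A' ≃+* A) (he : ∀ a, algebraMap A Ω (e a) = algebraMap A' Ω a)
    (h : Sol A' Ω) : Sol A Ω := by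
  obtain ⟨φ, hφ⟩ := h
  have hi : ∀ z : integralClosure A Ω, IsIntegral A' (z : Ω) := by
    intro z
    refine IsIntegral.map_of_comp_eq (e.symm : A →+* A') (RingHom.id Ω) ?_ z.2
    ext a
    simp [← he]
  refine ⟨{ toFun := fun z => e (φ ⟨z, hi z⟩), map_add' := ?_, map_smul' := ?_ }, ?_⟩
  · intro z w
    rw [← map_add, ← map_add]
    rfl
  · intro a z
    have : (⟨((a • z : integralClosure A Ω) : Ω), hi _⟩ : integralClosure A' Ω) =
        e.symm a • ⟨z, hi z⟩ := by
      apply Subtype.ext
      simp [Algebra.smul_def, ← he]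
    rw [this, map_smul]
    simp
  · intro h
    apply hφ
    have h' : e (φ 1) = 0 := h
    simpa using h'

theorem sol_of_mv (p : ℕ) [Fact p.Prime] {k A Ω σ : Type*} [Field k] [CharP k p] [Fintype σ]
    [CommRing A] [Field Ω] [Algebra A Ω] (e : MvPolynomial σ k ≃+* A)
    (inj : Function.Injective (algebraMap A Ω)) : Sol A Ω := by
  let _ : Algebra (MvPolynomial σ k) Ω := ((algebraMap A Ω).comp e.toRingHom).toAlgebra
  let _ : Algebra k Ω := (((algebraMap A Ω).comp e.toRingHom).comp MvPolynomial.C).toAlgebra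
  have : IsScalarTower k (MvPolynomial σ k) Ω := IsScalarTower.of_algebraMap_eq fun _ => rfl
  have : CharP Ω p := charP_of_injective_algebraMap (algebraMap k Ω).injective p
  exact sol_equiv e (fun _ => rfl) (solid_mv p (inj.comp e.injective))

theorem sol_algHom {R Ω₁ Ω₂ : Type*} [CommRing R] [CommRing Ω₁] [CommRing Ω₂] [Algebra R Ω₁]
    [Algebra R Ω₂] (e : Ω₁ →ₐ[R] Ω₂) (h : Sol R Ω₂) : Sol R Ω₁ := by
  obtain ⟨φ, hφ⟩ := h
  refine ⟨φ.comp (e.mapIntegralClosure).toLinearMap, ?_⟩
  simpa using hφ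

theorem sol_loc {A B Ω : Type*} [CommRing A] [CommRing B] [IsDomain B] [CommRing Ω]
    (S : Submonoid A) [Algebra A B] [IsLocalization S B] [Algebra A Ω] [Algebra B Ω]
    [IsScalarTower A B Ω] (inj : Function.Injective (algebraMap A B)) (h : Sol A Ω) :
    Sol B Ω := by
  obtain ⟨φ, hφ⟩ := h
  have h1 : ∀ z : integralClosure B Ω, ∃ s : S, IsIntegral A ((s : A) • (z : Ω)) :=
    fun z => IsIntegral.exists_multiple_integral_of_isLocalization S (z : Ω) z.2
  choose s hs using h1
  let ψ : integralClosure B Ω → B := fun z => IsLocalization.mk' B (φ ⟨_, hs z⟩) (s z)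
  have hne : ∀ t : S, algebraMap A B t ≠ 0 := fun t => (IsLocalization.map_units B t).ne_zero
  have spec : ∀ (z : integralClosure B Ω) (a : A) (ha : IsIntegral A (a • (z : Ω))),
      algebraMap A B a * ψ z = algebraMap A B (φ ⟨_, ha⟩) := by
    intro z a ha
    apply mul_left_cancel₀ (hne (s z))
    have e1 : algebraMap A B (s z) * ψ z = algebraMap A B (φ ⟨_, hs z⟩) := by
      rw [mul_comm]; exact IsLocalization.mk'_spec B _ _
    have e2 : a • (⟨_, hs z⟩ : integralClosure A Ω) = (s z : A) • ⟨_, ha⟩ := by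
      apply Subtype.ext
      simp only [Subalgebra.coe_smul]
      rw [smul_comm]
    have e3 : a * φ ⟨_, hs z⟩ = s z * φ ⟨_, ha⟩ := by
      rw [← smul_eq_mul, ← smul_eq_mul, ← map_smul, ← map_smul, e2]
    rw [mul_left_comm, e1, ← map_mul, ← map_mul, e3]
  have hadd : ∀ z w, ψ (z + w) = ψ z + ψ w := by
    intro z w
    have hz : IsIntegral A (((s z * s w : S) : A) • (z : Ω)) := by
      rw [Submonoid.coe_mul, mul_comm, mul_smul]; exact (hs z).smul _
    have hw : IsIntegral A (((s z * s w : S) : A) • (w : Ω)) := by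
      rw [Submonoid.coe_mul, mul_smul]; exact (hs w).smul _
    have hzw : IsIntegral A (((s z * s w : S) : A) • ((z + w : integralClosure B Ω) : Ω)) := by
      rw [Subalgebra.coe_add, smul_add]; exact hz.add hw
    apply mul_left_cancel₀ (hne (s z * s w))
    rw [mul_add, spec _ _ hz, spec _ _ hw, spec _ _ hzw, ← map_add, ← map_add]
    congr 2
    apply Subtype.ext
    simp
  have hsm : ∀ (b : B) z, ψ (b • z) = b * ψ z := by
    intro b z
    obtain ⟨⟨a, t⟩, hat⟩ := IsLocalization.surj S b
    simp only at hat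
    have e0 : ((s z * t : S) : A) • ((b • z : integralClosure B Ω) : Ω) =
        a • ((s z : A) • (z : Ω)) := by
      rw [Submonoid.coe_mul, mul_smul, Subalgebra.coe_smul, smul_comm a]
      congr 1
      rw [← algebraMap_smul B (t : A), ← mul_smul, mul_comm, hat, algebraMap_smul]
    have h2 : IsIntegral A (((s z * t : S) : A) • ((b • z : integralClosure B Ω) : Ω)) := by
      rw [e0]; exact (hs z).smul _
    apply mul_left_cancel₀ (hne (s z * t))
    rw [spec _ _ h2]
    have e1 : (⟨_, h2⟩ : integralClosure A Ω) = a • ⟨_, hs z⟩ := Subtype.ext e0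
    rw [e1, map_smul, smul_eq_mul, map_mul, ← spec z _ (hs z), Submonoid.coe_mul, map_mul, ← hat]
    ring
  refine ⟨{ toFun := ψ, map_add' := hadd, map_smul' := hsm }, fun h => hφ ?_⟩
  have h' : ψ 1 = 0 := h
  have h3 : IsIntegral A ((1 : A) • ((1 : integralClosure B Ω) : Ω)) := by
    simpa using isIntegral_one
  have h4 := spec 1 1 h3
  rw [h', mul_zero] at h4
  have e : (⟨_, h3⟩ : integralClosure A Ω) = 1 := Subtype.ext (by simp)
  rw [e] at h4
  apply inj
  rw [map_zero, ← h4]

theorem sol_sub {B Ω : Type*} [CommRing B] [IsDomain B] [CommRing Ω] [Algebra B Ω]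
    (R : Subring B) (j : B) (hj : j ≠ 0) (hR : ∀ b, j * b ∈ R) (h : Sol B Ω) : Sol R Ω := by
  obtain ⟨φ, hφ⟩ := h
  have hi : ∀ z : integralClosure R Ω, IsIntegral B (z : Ω) := fun z => z.2.tower_top
  refine ⟨{ toFun := fun z => ⟨j * φ ⟨z, hi z⟩, hR _⟩, map_add' := ?_, map_smul' := ?_ }, ?_⟩
  · intro z w
    apply Subtype.ext
    simp only [Subring.coe_add]
    rw [← mul_add, ← map_add]
    rfl
  · intro a z
    apply Subtype.ext
    have : (⟨((a • z : integralClosure R Ω) : Ω), hi _⟩ : integralClosure B Ω) =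
        (a : B) • ⟨z, hi z⟩ := Subtype.ext rfl
    simp only [this, map_smul, smul_eq_mul, RingHom.id_apply, Subring.coe_mul]
    ring
  · intro h
    have h' : j * φ 1 = 0 := congrArg Subtype.val h
    exact mul_ne_zero hj hφ h'

theorem inj_closure (R : Type*) [CommRing R] [IsDomain R] :
    Function.Injective (algebraMap R (AlgebraicClosure (FractionRing R))) := by
  rw [IsScalarTower.algebraMap_eq R (FractionRing R)]
  exact (algebraMap (FractionRing R) _).injective.comp (IsFractionRing.injective R _)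

theorem sol_closure {R Ω : Type*} [CommRing R] [IsDomain R] [Field Ω] [IsAlgClosed Ω]
    [Algebra R Ω] (inj : Function.Injective (algebraMap R Ω)) (h : Sol R Ω) :
    ∃ f : integralClosure R (AlgebraicClosure (FractionRing R)) →ₗ[R] R, f ≠ 0 := by
  have : FaithfulSMul R Ω := (faithfulSMul_iff_algebraMap_injective R Ω).2 inj
  have : Algebra.IsAlgebraic R (AlgebraicClosure (FractionRing R)) :=
    (IsFractionRing.comap_isAlgebraic_iff (K := FractionRing R)).2 inferInstance
  have : FaithfulSMul R (AlgebraicClosure (FractionRing R)) :=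
    (faithfulSMul_iff_algebraMap_injective _ _).2 (inj_closure R)
  obtain ⟨φ, hφ⟩ := sol_algHom
    (IsAlgClosed.lift : AlgebraicClosure (FractionRing R) →ₐ[R] Ω) h
  exact ⟨φ, fun h0 => hφ (by rw [h0]; rfl)⟩

theorem solid_polynomial (p : ℕ) (hp : p.Prime) (k : Type) [Field k] [CharP k p] :
    ∃ f : ↥(integralClosure (Polynomial k) (AlgebraicClosure (FractionRing (Polynomial k))))
      →ₗ[Polynomial k] Polynomial k, f ≠ 0 := by
  have : Fact p.Prime := ⟨hp⟩
  have inj : Function.Injective
      (algebraMap (Polynomial k) (AlgebraicClosure (FractionRing (Polynomial k)))) :=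
    inj_closure _
  exact sol_closure inj (sol_of_mv p (MvPolynomial.uniqueAlgEquiv k Unit).toRingEquiv inj)

end Pool.Agent.H604Z.Solid
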