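import Mathlib
import Pool.Agent.H604Z.SolidC
import Pool.Agent.H604Z.Glue
import Pool.Agent.H604Z.CatDefs

set_option autoImplicit false

namespace Pool.Agent.H604Z.Nagata

open Polynomial

theorem not_cat {R : Type*} [CommRing R] (a b c d m : PrimeSpectrum R) (h₁ : a ⋖ b) (h₂ : b ⋖ m)
    (h₃ : a ⋖ c) (h₄ : c ⋖ d) (h₅ : d ⋖ m) : ¬ IsCatenaryRing R := by
  intro h
  let s : LTSeries (PrimeSpectrum R) := ⟨2, ![a, b, m], by
    intro i; fin_cases i
    · exact h₁.lt
    · exact h₂.lt⟩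
  let t : LTSeries (PrimeSpectrum R) := ⟨3, ![a, c, d, m], by
    intro i; fin_cases i
    · exact h₃.lt
    · exact h₄.lt
    · exact h₅.lt⟩
  have := (h a m (h₁.le.trans h₂.le)).2 s t rfl rfl rfl rfl (by
    intro i; fin_cases i
    · exact h₁
    · exact h₂) (by
    intro i; fin_cases i
    · exact h₃
    · exact h₄
    · exact h₅)
  have h23 : (2 : ℕ) = 3 := this
  omega

theorem exists_tau (p : ℕ) [Fact p.Prime] : ∃ (k : Type) (_ : Field k) (_ : CharP k p)
    (τ : k[X] →+* k), Function.Injective τ ∧ ∀ γ, ∃ a c, c ≠ 0 ∧ γ * τ c = τ a := by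
  let D := MvPolynomial ℕ (ZMod p)
  let k := FractionRing D
  let e : D[X] ≃+* D := ((MvPolynomial.optionEquivLeft (ZMod p) ℕ).symm.trans
    (MvPolynomial.renameEquiv (ZMod p) (Denumerable.eqv (Option ℕ)))).toRingEquiv
  let ι : D[X] →+* k := (algebraMap D k).comp e.toRingHom
  have hι : Function.Injective ι := (IsFractionRing.injective D k).comp e.injective
  have hιC : Function.Injective (ι.comp C) := hι.comp C_injective
  let τ : k[X] →+* k := eval₂RingHom (IsFractionRing.lift hιC) (ι X)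
  have hτ : ∀ g : D[X], τ (g.map (algebraMap D k)) = ι g := by
    intro g
    have : τ.comp (mapRingHom (algebraMap D k)) = ι := by
      apply Polynomial.ringHom_ext
      · intro a; simp [τ]
      · simp [τ]
    exact congrArg (fun f : D[X] →+* k => f g) this
  have : CharP k p := charP_of_injective_algebraMap (IsFractionRing.injective D k) p
  refine ⟨k, inferInstance, inferInstance, τ, ?_, ?_⟩
  · rw [injective_iff_map_eq_zero]
    intro f hf
    obtain ⟨b, hb, hbf⟩ := IsLocalization.integerNormalization_spec (nonZeroDivisors D) f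
    have h1 : ι (IsLocalization.integerNormalization (nonZeroDivisors D) f) = 0 := by
      rw [← hτ, hbf, ← algebraMap_smul k b f, smul_eq_C_mul, map_mul, hf, mul_zero]
    have h2 : IsLocalization.integerNormalization (nonZeroDivisors D) f = 0 :=
      hι (by rw [h1, map_zero])
    exact IsFractionRing.integerNormalization_eq_zero_iff.1 h2
  · intro γ
    obtain ⟨a, b, hb, rfl⟩ := IsFractionRing.div_surjective D γ
    have hb0 : algebraMap D k b ≠ 0 := IsFractionRing.to_map_ne_zero_of_mem_nonZeroDivisors hb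
    have h1 : ∀ a : D, τ ((e.symm a).map (algebraMap D k)) = algebraMap D k a := by
      intro a; rw [hτ]; simp [ι]
    refine ⟨(e.symm a).map (algebraMap D k), (e.symm b).map (algebraMap D k), ?_, ?_⟩
    · intro h
      apply hb0
      rw [← h1, h, map_zero]
    · rw [h1, h1, div_mul_cancel₀ _ hb0]

theorem ker_le {A D : Type*} [CommRing A] [CommRing D] (ρ : A →+* D[X])
    (hρ : Function.Surjective ρ) (c : D) (t : A) (ht : ρ t = X - C c) :
    RingHom.ker ((evalRingHom c).comp ρ) ≤ RingHom.ker ρ ⊔ Ideal.span {t} := by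
  intro f hf
  have h1 : (X - C c) ∣ ρ f := dvd_iff_isRoot.2 hf
  obtain ⟨g, hg⟩ := h1
  obtain ⟨g', rfl⟩ := hρ g
  have : f = (f - g' * t) + g' * t := by ring
  rw [this]
  refine Submodule.add_mem_sup ?_ (Ideal.mem_span_singleton'.2 ⟨g', rfl⟩)
  rw [RingHom.mem_ker, map_sub, map_mul, ht, hg]
  ring

section loc

variable {A : Type*} [CommRing A] (S : Submonoid A)

/-- extension of the kernel of a map to a domain -/
def ext {E : Type*} [CommRing E] [IsDomain E] (ρ : A →+* E) (h : ∀ s ∈ S, ρ s ≠ 0) :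
    PrimeSpectrum (Localization S) :=
  ⟨(RingHom.ker ρ).map (algebraMap A (Localization S)),
    IsLocalization.isPrime_of_isPrime_disjoint S _ _ (RingHom.ker_isPrime ρ)
      (Set.disjoint_left.2 fun s hs h' => h s hs h')⟩

lemma mem_ext {E : Type*} [CommRing E] [IsDomain E] (ρ : A →+* E) (h : ∀ s ∈ S, ρ s ≠ 0) (a : A) :
    algebraMap A (Localization S) a ∈ (ext S ρ h).asIdeal ↔ ρ a = 0 := by
  have := IsLocalization.under_map_of_isPrime_disjoint S (Localization S) (RingHom.ker_isPrime ρ)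
    (Set.disjoint_left.2 fun s hs h' => h s hs h')
  rw [← RingHom.mem_ker, ← this]
  rfl

lemma cov_ext [IsNoetherianRing A] {E E' : Type*} [CommRing E] [IsDomain E] [CommRing E']
    [IsDomain E'] (ρ : A →+* E) (h : ∀ s ∈ S, ρ s ≠ 0) (ρ' : A →+* E') (h' : ∀ s ∈ S, ρ' s ≠ 0)
    (t : A) (h1 : RingHom.ker ρ ≤ RingHom.ker ρ') (h2 : ρ t ≠ 0) (h3 : ρ' t = 0)
    (h4 : RingHom.ker ρ' ≤ RingHom.ker ρ ⊔ Ideal.span {t}) : ext S ρ h ⋖ ext S ρ' h' := by
  refine Glue.covB _ _ (lt_of_le_not_ge (Ideal.map_mono h1) fun hle => h2 ?_)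
    (algebraMap A _ t) ((mem_ext S ρ' h' t).2 h3) ?_
  · exact (mem_ext S ρ h t).1 (hle ((mem_ext S ρ' h' t).2 h3))
  · have := Ideal.map_mono (f := algebraMap A (Localization S)) h4
    rwa [Ideal.map_sup, Ideal.map_span, Set.image_singleton] at this

lemma mem_ext_lift {F : Type*} [Field F] (ρ : A →+* F) (h : ∀ s ∈ S, ρ s ≠ 0)
    (π : Localization S →+* F) (hπ : ∀ a, π (algebraMap A _ a) = ρ a) (b : Localization S) :
    b ∈ (ext S ρ h).asIdeal ↔ π b = 0 := by
  obtain ⟨⟨a, s⟩, has⟩ := IsLocalization.surj S b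
  simp only at has
  have h1 : π b * ρ s = ρ a := by rw [← hπ, ← hπ, ← map_mul, has]
  constructor
  · intro hb
    have : algebraMap A (Localization S) a ∈ (ext S ρ h).asIdeal := by
      rw [← has]; exact Ideal.mul_mem_right _ _ hb
    rw [mem_ext, ← h1] at this
    exact (mul_eq_zero.1 this).resolve_right (h s s.2)
  · intro hb
    have : algebraMap A (Localization S) a ∈ (ext S ρ h).asIdeal := by
      rw [mem_ext, ← h1, hb, zero_mul]
    rw [← has] at this
    refine ((ext S ρ h).isPrime.mem_or_mem this).resolve_right ?_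
    rw [mem_ext]
    exact h s s.2

end loc

/-- complement of two primes -/
def SS {A F : Type*} [CommRing A] [Field F] (ρ₁ ρ₂ : A →+* F) : Submonoid A where
  carrier := {s | ρ₁ s ≠ 0 ∧ ρ₂ s ≠ 0}
  mul_mem' := fun ha hb => by
    simp only [Set.mem_ofPred_eq, map_mul]
    exact ⟨mul_ne_zero ha.1 hb.1, mul_ne_zero ha.2 hb.2⟩
  one_mem' := by simp

theorem sol_final {B Ω : Type*} [CommRing B] [IsDomain B] [Field Ω] [IsAlgClosed Ω] [Algebra B Ω]
    (inj : Function.Injective (algebraMap B Ω)) (R : Subring B) (j : B) (hj : j ≠ 0)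
    (hR : ∀ b, j * b ∈ R) (h : Solid.Sol B Ω) :
    ∃ f : integralClosure R (AlgebraicClosure (FractionRing R)) →ₗ[R] R, f ≠ 0 :=
  Solid.sol_closure (Ω := Ω) (inj.comp Subtype.val_injective) (Solid.sol_sub R j hj hR h)

theorem abstract_main (p : ℕ) [Fact p.Prime] {k A E₁ E₂ σ : Type} [Field k] [CharP k p]
    [CommRing A] [IsDomain A] [IsNoetherianRing A] [CommRing E₁] [IsDomain E₁] [CommRing E₂]
    [IsDomain E₂] [Fintype σ] (e : MvPolynomial σ k ≃+* A) (ρa : A →+* E₁) (ρ₁ : A →+* k)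
    (ρb : A →+* E₁) (ρc : A →+* E₂) (ρ₂ : A →+* k) (x y z : A)
    (ka1 : RingHom.ker ρa ≤ RingHom.ker ρ₁) (kbc : RingHom.ker ρb ≤ RingHom.ker ρc)
    (kc2 : RingHom.ker ρc ≤ RingHom.ker ρ₂)
    (k0a : RingHom.ker ρa ≤ RingHom.ker (RingHom.id A) ⊔ Ideal.span {x - 1})
    (k0b : RingHom.ker ρb ≤ RingHom.ker (RingHom.id A) ⊔ Ideal.span {x})
    (ka1' : RingHom.ker ρ₁ ≤ RingHom.ker ρa ⊔ Ideal.span {y})
    (kbc' : RingHom.ker ρc ≤ RingHom.ker ρb ⊔ Ideal.span {y})
    (kc2' : RingHom.ker ρ₂ ≤ RingHom.ker ρc ⊔ Ideal.span {z})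
    (ax : ρa x = 1) (ay : ρa y ≠ 0) (y1 : ρ₁ y = 0) (bx : ρb x = 0) (by' : ρb y ≠ 0)
    (cy : ρc y = 0) (cz : ρc z ≠ 0) (z2 : ρ₂ z = 0)
    (s1 : ∀ γ, ∃ a c, ρ₁ c ≠ 0 ∧ γ * ρ₁ c = ρ₁ a) (s2 : Function.Surjective ρ₂) :
    ∃ (R : Type) (_ : CommRing R) (_ : IsDomain R),
    IsNoetherianRing R ∧ CharP R p ∧ ¬ IsCatenaryRing R ∧
      ∃ f : integralClosure R (AlgebraicClosure (FractionRing R)) →ₗ[R] R, f ≠ 0 := by
  have x1 : ρ₁ x = 1 := by
    have : ρ₁ (x - 1) = 0 := ka1 (show ρa (x - 1) = 0 by simp [ax])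
    rwa [map_sub, map_one, sub_eq_zero] at this
  have cx : ρc x = 0 := kbc bx
  have x2 : ρ₂ x = 0 := kc2 cx
  have y2 : ρ₂ y = 0 := kc2 cy
  let S := SS ρ₁ ρ₂
  have h₁ : ∀ s ∈ S, ρ₁ s ≠ 0 := fun s hs => hs.1
  have h₂ : ∀ s ∈ S, ρ₂ s ≠ 0 := fun s hs => hs.2
  have h₀ : ∀ s ∈ S, RingHom.id A s ≠ 0 := by
    intro s hs h
    apply hs.1
    rw [show s = 0 from h, map_zero]
  have ha : ∀ s ∈ S, ρa s ≠ 0 := fun s hs h => hs.1 (ka1 h)
  have hc : ∀ s ∈ S, ρc s ≠ 0 := fun s hs h => hs.2 (kc2 h)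
  have hb : ∀ s ∈ S, ρb s ≠ 0 := fun s hs h => hc s hs (kbc h)
  have hS : S ≤ nonZeroDivisors A := fun s hs => mem_nonZeroDivisors_of_ne_zero (h₀ s hs)
  let B := Localization S
  have : IsDomain B := IsLocalization.isDomain_localization hS
  have injAB : Function.Injective (algebraMap A B) := IsLocalization.injective B hS
  let π₁ : B →+* k := IsLocalization.lift (M := S) (g := ρ₁) fun s => (h₁ s s.2).isUnit
  let π₂ : B →+* k := IsLocalization.lift (M := S) (g := ρ₂) fun s => (h₂ s s.2).isUnit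
  have hπ₁ : ∀ a, π₁ (algebraMap A B a) = ρ₁ a := fun a => IsLocalization.lift_eq _ a
  have hπ₂ : ∀ a, π₂ (algebraMap A B a) = ρ₂ a := fun a => IsLocalization.lift_eq _ a
  have D : Glue.Data π₁ π₂ (algebraMap A B x) := by
    refine ⟨fun γ => ?_, fun γ => ?_, ?_, ?_⟩
    · obtain ⟨a, c, hc0, hγ⟩ := s1 γ
      have e1 : ρ₁ (x * c + (1 - x)) = ρ₁ c := by simp [x1]
      have e2 : ρ₂ (x * c + (1 - x)) = 1 := by simp [x2]
      have hs : (x * c + (1 - x) : A) ∈ S := ⟨by rw [e1]; exact hc0, by rw [e2]; simp⟩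
      refine ⟨IsLocalization.mk' B a ⟨_, hs⟩, ?_⟩
      apply mul_right_cancel₀ hc0
      rw [hγ, ← e1, ← hπ₁, ← map_mul]
      have := IsLocalization.mk'_spec B a (⟨_, hs⟩ : S)
      rw [this, hπ₁]
    · obtain ⟨a, ha⟩ := s2 γ
      exact ⟨algebraMap A B a, by rw [hπ₂, ha]⟩
    · rw [hπ₁, x1]
    · rw [hπ₂, x2]
  let j : A := (x - 1) * z + y
  have j₁ : π₁ (algebraMap A B j) = 0 := by rw [hπ₁]; simp [j, x1, y1]
  have j₂ : π₂ (algebraMap A B j) = 0 := by rw [hπ₂]; simp [j, z2, y2]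
  have jc : ρc j ≠ 0 := by simpa [j, cx, cy] using cz
  have jb : ρb j ≠ 0 := fun h => jc (kbc h)
  have ja : ρa j ≠ 0 := by simpa [j, ax] using ay
  have k0 : ∀ I : Ideal A, RingHom.ker (RingHom.id A) ≤ I := fun I f hf => by
    rw [show f = 0 from hf]; exact zero_mem _
  have c0a : ext S (RingHom.id A) h₀ ⋖ ext S ρa ha := by
    refine cov_ext S _ _ _ _ (x - 1) (k0 _) (fun h => ?_) (by simp [ax]) k0a
    have h' : x - 1 = 0 := h
    have := congrArg ρ₂ h'
    simp [x2] at this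
  have c0b : ext S (RingHom.id A) h₀ ⋖ ext S ρb hb := by
    refine cov_ext S _ _ _ _ x (k0 _) (fun h => ?_) bx k0b
    have h' : x = 0 := h
    have := congrArg ρ₁ h'
    simp [x1] at this
  have ca1 : ext S ρa ha ⋖ ext S ρ₁ h₁ := cov_ext S _ _ _ _ y ka1 ay y1 ka1'
  have cbc : ext S ρb hb ⋖ ext S ρc hc := cov_ext S _ _ _ _ y kbc by' cy kbc'
  have cc2 : ext S ρc hc ⋖ ext S ρ₂ h₂ := cov_ext S _ _ _ _ z kc2 cz z2 kc2'
  have hall : ∀ Q : PrimeSpectrum B, Q ≤ ext S ρ₁ h₁ ∨ Q ≤ ext S ρ₂ h₂ := by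
    intro Q
    apply Ideal.subset_union.1
    intro b hbQ
    by_contra hn
    obtain ⟨⟨a, s⟩, has⟩ := IsLocalization.surj S b
    simp only at has
    have hu : a ∈ S := by
      constructor
      · intro h
        apply hn
        left
        have := (mem_ext S ρ₁ h₁ a).2 h
        rw [← has] at this
        exact ((ext S ρ₁ h₁).isPrime.mem_or_mem this).resolve_right
          (by rw [mem_ext]; exact h₁ s s.2)
      · intro h
        apply hn
        right
        have := (mem_ext S ρ₂ h₂ a).2 h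
        rw [← has] at this
        exact ((ext S ρ₂ h₂).isPrime.mem_or_mem this).resolve_right
          (by rw [mem_ext]; exact h₂ s s.2)
    apply Q.isPrime.ne_top
    refine Ideal.eq_top_of_isUnit_mem _ ?_ (IsLocalization.map_units B (⟨a, hu⟩ : S))
    change algebraMap A B a ∈ _
    rw [← has]
    exact Ideal.mul_mem_right _ _ hbQ
  have hm : Glue.ct π₁ π₂ (ext S ρ₂ h₂) = Glue.ct π₁ π₂ (ext S ρ₁ h₁) := by
    ext r
    rw [Glue.mem_ct, Glue.mem_ct, mem_ext_lift S ρ₁ h₁ π₁ hπ₁, mem_ext_lift S ρ₂ h₂ π₂ hπ₂,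
      RingHom.mem_eqLocus.1 r.2]
  refine ⟨π₁.eqLocus π₂, inferInstance, inferInstance, Glue.noeth D, ?_, ?_, ?_⟩
  · have : CharP A p := charP_of_injective_ringHom (f := e.toRingHom) e.injective p
    have : CharP B p := charP_of_injective_algebraMap injAB p
    infer_instance
  · refine not_cat _ _ _ _ _
      (Glue.covR₁ D c0a j₁ j₂ (by rw [mem_ext]; exact ja))
      (Glue.covR₂ D ca1 j₁ j₂ (by rw [mem_ext]; exact ja) hall ?_)
      (Glue.covR₁ D c0b j₁ j₂ (by rw [mem_ext]; exact jb))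
      (Glue.covR₁ D cbc j₁ j₂ (by rw [mem_ext]; exact jc)) ?_
    · intro h
      have h1 := h ((mem_ext S ρa ha (x - 1)).2 (by simp [ax]))
      rw [mem_ext] at h1
      simp [x2] at h1
    · rw [← hm]
      refine Glue.covR₂ D cc2 j₁ j₂ (by rw [mem_ext]; exact jc) (fun Q => (hall Q).symm) ?_
      intro h
      have h1 := h ((mem_ext S ρc hc x).2 cx)
      rw [mem_ext] at h1
      simp [x1] at h1
  · let Ω := AlgebraicClosure (FractionRing B)
    have injB : Function.Injective (algebraMap B Ω) := Solid.inj_closure B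
    have injA : Function.Injective (algebraMap A Ω) := by
      rw [IsScalarTower.algebraMap_eq A B Ω]
      exact injB.comp injAB
    have s1 : Solid.Sol A Ω := Solid.sol_of_mv p e injA
    have s2 : Solid.Sol B Ω := Solid.sol_loc S injAB s1
    have hj0 : algebraMap A B j ≠ 0 := fun h => ja (by
      rw [injAB (h.trans (map_zero _).symm), map_zero])
    exact sol_final injB (π₁.eqLocus π₂) _ hj0 (Glue.mem_of_J j₁ j₂) s2

theorem main (p : ℕ) (hp : p.Prime) : ∃ (R : Type) (_ : CommRing R) (_ : IsDomain R),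
    IsNoetherianRing R ∧ CharP R p ∧ ¬ IsCatenaryRing R ∧
      ∃ f : integralClosure R (AlgebraicClosure (FractionRing R)) →ₗ[R] R, f ≠ 0 := by
  have : Fact p.Prime := ⟨hp⟩
  obtain ⟨k, _, _, τ, hτ, hτs⟩ := exists_tau p
  have surjC : ∀ {E : Type} [CommRing E] (c : E), Function.Surjective (evalRingHom c) :=
    fun c e => ⟨C e, by simp⟩
  refine abstract_main p (k := k) (A := k[X][X][X]) (E₁ := k[X][X]) (E₂ := k[X])
    (σ := Option (Option Unit))
    ((MvPolynomial.optionEquivLeft k (Option Unit)).toRingEquiv.trans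
        (Polynomial.mapEquiv ((MvPolynomial.optionEquivLeft k Unit).toRingEquiv.trans
          (Polynomial.mapEquiv (MvPolynomial.uniqueAlgEquiv k Unit).toRingEquiv))))
    (evalRingHom 1) (τ.comp ((evalRingHom 0).comp (evalRingHom 1)))
    (evalRingHom 0) ((evalRingHom 0).comp (evalRingHom 0))
    ((evalRingHom 0).comp ((evalRingHom 0).comp (evalRingHom 0))) X (C X) (C (C X))
    ?_ ?_ ?_ ?_ ?_ ?_ ?_ ?_ (by simp) (by simp) (by simp) (by simp) (by simp) (by simp) (by simp)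
    (by simp) ?_ (fun e => ⟨C (C (C e)), by simp⟩)
  · intro f hf
    have : eval 1 f = 0 := hf
    simp [RingHom.mem_ker, this]
  · intro f hf
    have : eval 0 f = 0 := hf
    simp [RingHom.mem_ker, this]
  · intro f hf
    have : eval 0 (eval 0 f) = 0 := hf
    simp [RingHom.mem_ker, this]
  · exact ker_le (A := k[X][X][X]) (RingHom.id _) Function.surjective_id 1 (X - 1) (by simp)
  · exact ker_le (A := k[X][X][X]) (RingHom.id _) Function.surjective_id 0 X (by simp)
  · intro f hf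
    have hk := ker_le (A := k[X][X][X]) (D := k[X]) (evalRingHom 1) (surjC 1) 0 (C X) (by simp)
    refine hk ?_
    rw [RingHom.mem_ker] at hf ⊢
    rw [RingHom.comp_apply] at hf
    exact hτ (by rw [map_zero]; exact hf)
  · have hk := ker_le (A := k[X][X][X]) (D := k[X]) (evalRingHom 0) (surjC 0) 0 (C X) (by simp)
    exact hk
  · have hs : Function.Surjective ((evalRingHom (0 : k[X])).comp (evalRingHom (0 : k[X][X]))) :=
      fun e => ⟨C (C e), by simp⟩
    have hk := ker_le (A := k[X][X][X]) (D := k) ((evalRingHom 0).comp (evalRingHom 0))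
      hs 0 (C (C X)) (by simp)
    exact hk
  · intro γ
    obtain ⟨a, c, hc0, hγ⟩ := hτs γ
    have hτc : τ c ≠ 0 := fun h => hc0 (hτ (by rw [h, map_zero]))
    exact ⟨C (C a), C (C c), by simpa using hτc, by simpa using hγ⟩

end Pool.Agent.H604Z.Nagata
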