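import Mathlib

set_option autoImplicit false

namespace Pool.Agent.H604Z

open Finset

/-- all `m`-fold differences of `G` vanish -/
def DiffZero {F : Type*} [AddCommGroup F] : ℕ → (F → F) → Prop
  | 0, G => ∀ x, G x = 0
  | m + 1, G => ∀ h, DiffZero m (fun x => G (x + h) - G x)

lemma const_of_period {p : ℕ} [Fact p.Prime] (G : ZMod p → ZMod p) (h : ZMod p) (hh : h ≠ 0)
    (hG : ∀ x, G (x + h) = G x) : ∀ x, G x = G 0 := by
  have key : ∀ t : ℕ, G ((t : ZMod p) * h) = G 0 := by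
    intro t
    induction t with
    | zero => simp
    | succ t ih =>
      have : ((t + 1 : ℕ) : ZMod p) * h = (t : ZMod p) * h + h := by push_cast; ring
      rw [this, hG, ih]
  intro x
  have : x = (((x / h).val : ℕ) : ZMod p) * h := by
    rw [ZMod.natCast_zmod_val]; field_simp
  rw [this, key]

lemma norm_char {p : ℕ} [NeZero p] (a : ZMod p) : ‖(ZMod.stdAddChar a : ℂ)‖ = 1 := by
  rw [ZMod.stdAddChar_apply]; simp

lemma conj_char {p : ℕ} [NeZero p] (a : ZMod p) :
    (starRingEnd ℂ) (ZMod.stdAddChar a) = ZMod.stdAddChar (-a) := by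
  rw [AddChar.map_neg_eq_inv, Complex.inv_def, Complex.normSq_eq_norm_sq, norm_char]
  simp

lemma sq_sum_char {p : ℕ} [NeZero p] (G : ZMod p → ZMod p) :
    ‖∑ x, (ZMod.stdAddChar (G x) : ℂ)‖ ^ 2 ≤
      ∑ h, ‖∑ x, (ZMod.stdAddChar (G (x + h) - G x) : ℂ)‖ := by
  have e : ((‖∑ x, (ZMod.stdAddChar (G x) : ℂ)‖ ^ 2 : ℝ) : ℂ) =
      ∑ h, ∑ x, (ZMod.stdAddChar (G (x + h) - G x) : ℂ) := by
    rw [← Complex.normSq_eq_norm_sq, Complex.normSq_eq_conj_mul_self, map_sum, Finset.sum_mul,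
      Finset.sum_comm]
    refine Finset.sum_congr rfl fun x _ => ?_
    rw [conj_char, Finset.mul_sum]
    rw [← Equiv.sum_comp (Equiv.addLeft x)]
    refine Finset.sum_congr rfl fun h _ => ?_
    rw [← AddChar.map_add_eq_mul]
    congr 1
    simp only [Equiv.coe_addLeft]
    ring
  have e2 : ‖∑ x, (ZMod.stdAddChar (G x) : ℂ)‖ ^ 2 =
      ‖((‖∑ x, (ZMod.stdAddChar (G x) : ℂ)‖ ^ 2 : ℝ) : ℂ)‖ := by
    rw [Complex.norm_real, Real.norm_of_nonneg (by positivity)]
  rw [e2, e]
  exact norm_sum_le _ _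

theorem weyl (m : ℕ) : ∀ ε : ℝ, 0 < ε → ∃ p₀ : ℕ, ∀ p : ℕ, ∀ _ : Fact p.Prime, p₀ < p →
    ∀ G : ZMod p → ZMod p, DiffZero m G → (∃ x, G x ≠ G 0) →
      ‖∑ x, (ZMod.stdAddChar (G x) : ℂ)‖ ≤ ε * p := by
  induction m with
  | zero =>
    intro ε _
    refine ⟨0, fun p _ _ G hG ⟨x, hx⟩ => ?_⟩
    exact absurd ((hG x).trans (hG 0).symm) hx
  | succ m ih =>
    intro ε hε
    obtain ⟨p₁, hp₁⟩ := ih (ε ^ 2 / 2) (by positivity)
    obtain ⟨p₂, hp₂⟩ := exists_nat_gt (2 / ε ^ 2)
    refine ⟨max p₁ p₂, fun p hp hlt G hG ⟨x₀, hx₀⟩ => ?_⟩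
    have h1 : p₁ < p := lt_of_le_of_lt (le_max_left _ _) hlt
    have h2 : p₂ < p := lt_of_le_of_lt (le_max_right _ _) hlt
    have hp0 : (0 : ℝ) < p := by exact_mod_cast hp.out.pos
    by_cases hc : ∃ h : ZMod p, h ≠ 0 ∧ ∀ x, G (x + h) - G x = G (0 + h) - G 0
    · obtain ⟨h, hh, hc⟩ := hc
      set c := G (0 + h) - G 0 with hcdef
      have hc0 : c ≠ 0 := by
        intro h0
        apply hx₀
        apply const_of_period G h hh
        intro x
        have := hc x
        rw [h0] at this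
        exact sub_eq_zero.1 this
      have e : ∑ x, (ZMod.stdAddChar (G x) : ℂ) =
          ZMod.stdAddChar c * ∑ x, (ZMod.stdAddChar (G x) : ℂ) := by
        conv_lhs => rw [← Equiv.sum_comp (Equiv.addRight h)]
        rw [Finset.mul_sum]
        refine Finset.sum_congr rfl fun x _ => ?_
        rw [← AddChar.map_add_eq_mul]
        congr 1
        simp only [Equiv.coe_addRight]
        rw [← hc x]; ring
      have hne : (ZMod.stdAddChar c : ℂ) ≠ 1 := by
        intro h1
        apply hc0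
        apply ZMod.injective_stdAddChar
        rw [h1, AddChar.map_zero_eq_one]
      have : ∑ x, (ZMod.stdAddChar (G x) : ℂ) = 0 := by
        by_contra hs
        apply hne
        have e' : (ZMod.stdAddChar c - 1) * ∑ x, (ZMod.stdAddChar (G x) : ℂ) = 0 := by
          rw [sub_mul, ← e]; ring
        rcases mul_eq_zero.1 e' with h | h
        · exact sub_eq_zero.1 h
        · exact absurd h hs
      rw [this, norm_zero]
      positivity
    · push Not at hc
      have hb : ∀ h : ZMod p, ‖∑ x, (ZMod.stdAddChar (G (x + h) - G x) : ℂ)‖ ≤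
          (if h = 0 then (p : ℝ) else 0) + ε ^ 2 / 2 * p := by
        intro h
        by_cases hh : h = 0
        · rw [if_pos hh]
          refine le_trans (norm_sum_le _ _) ?_
          simp only [norm_char, Finset.sum_const, Finset.card_univ, ZMod.card, nsmul_eq_mul, mul_one]
          have : 0 ≤ ε ^ 2 / 2 * p := by positivity
          linarith
        · rw [if_neg hh, zero_add]
          exact hp₁ p hp h1 (fun x => G (x + h) - G x) (hG h) (hc h hh)
      have h3 := (sq_sum_char G).trans (Finset.sum_le_sum fun h _ => hb h)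
      rw [Finset.sum_add_distrib, Finset.sum_ite_eq' Finset.univ (0 : ZMod p)] at h3
      simp only [Finset.mem_univ, if_true, Finset.sum_const, Finset.card_univ, ZMod.card,
        nsmul_eq_mul] at h3
      have h4 : (2 : ℝ) / ε ^ 2 < p := hp₂.trans (by exact_mod_cast h2)
      rw [div_lt_iff₀ (by positivity)] at h4
      have h5 : ‖∑ x, (ZMod.stdAddChar (G x) : ℂ)‖ ^ 2 ≤ (ε * p) ^ 2 := by
        nlinarith
      exact (pow_le_pow_iff_left₀ (norm_nonneg _) (by positivity) two_ne_zero).1 h5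

lemma trig_bound (x : ℝ) :
    2 / 3 - 7 / 9 * Real.cos (2 * x) + 1 / 9 * Real.cos (2 * (2 * x)) ≤ x ^ 2 := by
  have h1 := Real.one_sub_sq_div_two_le_cos (x := x)
  have h2 := Real.cos_le_one x
  have h3 := Real.neg_one_le_cos x
  rw [Real.cos_two_mul (2 * x), Real.cos_two_mul x]
  set y := Real.cos x
  have h4 : 0 ≤ (y - 1 / 2) ^ 2 * ((1 - y) * (y + 2)) :=
    mul_nonneg (sq_nonneg _) (mul_nonneg (by linarith) (by linarith))
  nlinarith

end Pool.Agent.H604Z
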