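import Mathlib
import Pool.Agent.H604Z.Weyl

set_option autoImplicit false

namespace Pool.Agent.H604Z

open Finset

variable {p : ℕ}

/-- the linear form whose level sets are the lines of direction `d` -/
def LL (d : Option (ZMod p)) (q : ZMod p × ZMod p) : ZMod p :=
  d.elim q.1 (fun m => q.2 - m * q.1)

lemma LL_add (d : Option (ZMod p)) (P Q : ZMod p × ZMod p) :
    LL d (P + Q) = LL d P + LL d Q := by
  cases d with
  | none => simp [LL]
  | some m => simp [LL]; ring

lemma LL_sub (d : Option (ZMod p)) (P Q : ZMod p × ZMod p) :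
    LL d (P - Q) = LL d P - LL d Q := by
  cases d with
  | none => simp [LL]
  | some m => simp [LL]; ring

lemma LL_pair [Fact p.Prime] (d d' : Option (ZMod p)) (hd : d ≠ d') (h : ZMod p) :
    ∃ v, LL d v = h ∧ LL d' v = 0 := by
  cases d with
  | none =>
    cases d' with
    | none => exact absurd rfl hd
    | some m => exact ⟨(h, m * h), by simp [LL], by simp [LL]⟩
  | some m =>
    cases d' with
    | none => exact ⟨(0, h), by simp [LL], by simp [LL]⟩
    | some m' =>
      have hm : m' - m ≠ 0 := by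
        intro h0
        apply hd
        rw [sub_eq_zero.1 h0]
      refine ⟨(h / (m' - m), m' * (h / (m' - m))), ?_, by simp [LL]⟩
      simp only [LL, Option.elim]
      field_simp

lemma LL_surj (d : Option (ZMod p)) (h : ZMod p) : ∃ v, LL d v = h := by
  cases d with
  | none => exact ⟨(h, 0), by simp [LL]⟩
  | some m => exact ⟨(0, h), by simp [LL]⟩

lemma diffZero_of_sum [Fact p.Prime] (d₀ : Option (ZMod p)) (D : Finset (Option (ZMod p))) :
    d₀ ∉ D → ∀ (G₀ : ZMod p → ZMod p) (G : Option (ZMod p) → ZMod p → ZMod p) (c : ZMod p),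
      (∀ P, G₀ (LL d₀ P) + ∑ d ∈ D, G d (LL d P) = c) → DiffZero (D.card + 1) G₀ := by
  induction D using Finset.induction_on with
  | empty =>
    intro _ G₀ G c H h x
    obtain ⟨v, hv⟩ := LL_surj d₀ (x + h)
    obtain ⟨w, hw⟩ := LL_surj d₀ x
    have h1 := H v
    have h2 := H w
    simp only [Finset.sum_empty, add_zero, hv, hw] at h1 h2
    simp [h1, h2]
  | insert d₁ D hd₁ ih =>
    intro hd₀ G₀ G c H
    rw [Finset.card_insert_of_notMem hd₁]
    intro h
    have hne : d₀ ≠ d₁ := fun e => hd₀ (e ▸ Finset.mem_insert_self _ _)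
    have hD : d₀ ∉ D := fun e => hd₀ (Finset.mem_insert_of_mem e)
    obtain ⟨v, hv, hv'⟩ := LL_pair d₀ d₁ hne h
    refine ih hD _ (fun d x => G d (x + LL d v) - G d x) 0 fun P => ?_
    have h1 := H (P + v)
    have h2 := H P
    rw [Finset.sum_insert hd₁] at h1 h2
    simp only [LL_add, hv, hv', add_zero] at h1
    rw [Finset.sum_sub_distrib]
    linear_combination h1 - h2

lemma card_dirs [Fact p.Prime] (v : ZMod p × ZMod p) :
    (Finset.univ.filter (fun d : Option (ZMod p) => LL d v = 0)).card =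
      if v = 0 then p + 1 else 1 := by
  split_ifs with hv
  · subst hv
    have : (Finset.univ.filter (fun d : Option (ZMod p) => LL d 0 = 0)) = Finset.univ := by
      apply Finset.filter_true_of_mem
      intro d _
      cases d <;> simp [LL]
    rw [this, Finset.card_univ, Fintype.card_option, ZMod.card]
  · rw [Finset.card_eq_one]
    obtain ⟨x, y⟩ := v
    by_cases hx : x = 0
    · have hy : y ≠ 0 := by
        intro hy; apply hv; rw [hx, hy]; rfl
      refine ⟨none, ?_⟩
      ext d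
      cases d with
      | none => simp [LL, hx]
      | some m => simp [LL, hx, hy]
    · refine ⟨some (y / x), ?_⟩
      ext d
      cases d with
      | none => simp [LL, hx]
      | some m =>
        simp only [LL, Option.elim, Finset.mem_filter, Finset.mem_univ, true_and,
          Finset.mem_singleton, Option.some.injEq]
        constructor
        · intro h; field_simp; linear_combination -h
        · intro h; rw [h]; field_simp; ring

/-- number of points of `S` on the line of direction `d` with intercept `b` -/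
def gg (S : Finset (ZMod p × ZMod p)) (d : Option (ZMod p)) (b : ZMod p) : ℕ :=
  (S.filter (fun q => LL d q = b)).card

lemma sum_gg_point [Fact p.Prime] (S : Finset (ZMod p × ZMod p)) (P : ZMod p × ZMod p) :
    ∑ d, gg S d (LL d P) = S.card + if P ∈ S then p else 0 := by
  have e : ∑ d, gg S d (LL d P) = ∑ Q ∈ S, (if Q - P = 0 then p + 1 else 1) := by
    simp only [gg, Finset.card_filter]
    rw [Finset.sum_comm]
    refine Finset.sum_congr rfl fun Q _ => ?_
    rw [← card_dirs, Finset.card_filter]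
    refine Finset.sum_congr rfl fun d _ => ?_
    simp only [LL_sub, sub_eq_zero]
  rw [e]
  have e2 : ∀ Q : ZMod p × ZMod p, (if Q - P = 0 then p + 1 else 1) =
      1 + (if Q = P then p else 0) := by
    intro Q
    simp only [sub_eq_zero]
    split_ifs <;> ring
  simp only [e2, Finset.sum_add_distrib, Finset.sum_const, smul_eq_mul, mul_one,
    Finset.sum_ite_eq']

lemma sum_gg [Fact p.Prime] (S : Finset (ZMod p × ZMod p)) (d : Option (ZMod p)) :
    ∑ b, gg S d b = S.card := by
  simp only [gg]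
  exact (Finset.card_eq_sum_card_fiberwise (fun x _ => Finset.mem_coe.2 (Finset.mem_univ _))).symm

lemma sum_gg_sq [Fact p.Prime] (S : Finset (ZMod p × ZMod p)) :
    ∑ d, ∑ b, gg S d b ^ 2 = S.card * (S.card + p) := by
  have e : ∀ d, ∑ b, gg S d b ^ 2 = ∑ P ∈ S, gg S d (LL d P) := by
    intro d
    rw [← Finset.sum_fiberwise (s := S) (g := fun P => LL d P) (f := fun P => gg S d (LL d P))]
    refine Finset.sum_congr rfl fun b _ => ?_
    rw [Finset.sum_congr rfl (g := fun _ => gg S d b)]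
    · simp [gg, sq]
    · intro P hP
      rw [(Finset.mem_filter.1 hP).2]
  simp only [e]
  rw [Finset.sum_comm]
  rw [Finset.sum_congr rfl (g := fun _ => S.card + p)]
  · simp
  · intro P hP
    rw [sum_gg_point, if_pos hP]

lemma gg_le [Fact p.Prime] (S : Finset (ZMod p × ZMod p)) (d : Option (ZMod p)) (b : ZMod p) :
    gg S d b ≤ p := by
  unfold gg
  have : (S.filter (fun q => LL d q = b)).card ≤ (Finset.univ : Finset (ZMod p)).card := by
    cases d with
    | none =>
      apply Finset.card_le_card_of_injOn (fun q => q.2) (fun _ _ => Finset.mem_coe.2 (Finset.mem_univ _))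
      intro q hq q' hq' h
      have h1 := (Finset.mem_filter.1 (Finset.mem_coe.1 hq)).2
      have h2 := (Finset.mem_filter.1 (Finset.mem_coe.1 hq')).2
      simp only [LL, Option.elim] at h1 h2
      exact Prod.ext (h1.trans h2.symm) h
    | some m =>
      apply Finset.card_le_card_of_injOn (fun q => q.1) (fun _ _ => Finset.mem_coe.2 (Finset.mem_univ _))
      intro q hq q' hq' h
      have h1 := (Finset.mem_filter.1 (Finset.mem_coe.1 hq)).2
      have h2 := (Finset.mem_filter.1 (Finset.mem_coe.1 hq')).2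
      simp only [LL, Option.elim] at h1 h2
      simp only at h
      refine Prod.ext h ?_
      rw [h] at h1
      linear_combination h1 - h2
  rwa [Finset.card_univ, ZMod.card] at this

/-- the variance sum of direction `d` -/
noncomputable def VV [NeZero p] (S : Finset (ZMod p × ZMod p)) (n : ℕ) (d : Option (ZMod p)) : ℝ :=
  ∑ b, ((gg S d b : ℝ) - n) ^ 2

lemma VV_eq [Fact p.Prime] (S : Finset (ZMod p × ZMod p)) (n : ℕ) (hn : S.card = p * n)
    (d : Option (ZMod p)) :
    VV S n d = ((∑ b, gg S d b ^ 2 : ℕ) : ℝ) - p * n ^ 2 := by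
  unfold VV
  have h1 : ∑ b, (gg S d b : ℝ) = p * n := by
    have := sum_gg S d
    rw [hn] at this
    exact_mod_cast this
  have : ∀ b, ((gg S d b : ℝ) - n) ^ 2 = (gg S d b : ℝ) ^ 2 - 2 * n * gg S d b + n ^ 2 := by
    intro b; ring
  simp only [this, Finset.sum_add_distrib, Finset.sum_sub_distrib, ← Finset.mul_sum, h1,
    Finset.sum_const, Finset.card_univ, ZMod.card, nsmul_eq_mul]
  push_cast
  ring

lemma sum_VV [Fact p.Prime] (S : Finset (ZMod p × ZMod p)) (n : ℕ) (hn : S.card = p * n) :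
    ∑ d, VV S n d = n * p * (p - n) := by
  simp only [VV_eq S n hn, Finset.sum_sub_distrib]
  rw [← Nat.cast_sum, sum_gg_sq, hn]
  simp only [Finset.sum_const, Finset.card_univ, Fintype.card_option, ZMod.card, nsmul_eq_mul]
  push_cast
  ring

lemma VV_nonneg [NeZero p] (S : Finset (ZMod p × ZMod p)) (n : ℕ) (d : Option (ZMod p)) :
    0 ≤ VV S n d := Finset.sum_nonneg fun _ _ => sq_nonneg _

lemma VV_pos [NeZero p] (S : Finset (ZMod p × ZMod p)) (n : ℕ) (d : Option (ZMod p))
    (h : ∃ b, gg S d b ≠ n) : 0 < VV S n d := by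
  obtain ⟨b, hb⟩ := h
  refine Finset.sum_pos' (fun _ _ => sq_nonneg _) ⟨b, Finset.mem_univ _, ?_⟩
  have : (gg S d b : ℝ) - n ≠ 0 := by
    rw [sub_ne_zero]; exact_mod_cast hb
  positivity

lemma nonconst [Fact p.Prime] (S : Finset (ZMod p × ZMod p)) (n : ℕ) (hn : S.card = p * n)
    (d d' : Option (ZMod p)) (hdd : d ≠ d') (hd : ∃ b, gg S d b ≠ n) (hd' : ∃ b, gg S d' b ≠ n) :
    ∃ x, ((gg S d x : ℕ) : ZMod p) ≠ ((gg S d 0 : ℕ) : ZMod p) := by
  by_contra hc
  push Not at hc
  have hp : 0 < p := (Fact.out : p.Prime).pos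
  have hmod : ∀ x y, gg S d x ≡ gg S d y [MOD p] := by
    intro x y
    rw [← ZMod.natCast_eq_natCast_iff, hc x, hc y]
  have hex : ∃ x y, gg S d x < gg S d y := by
    by_contra hn'
    push Not at hn'
    obtain ⟨b, hb⟩ := hd
    have h1 : ∀ x, gg S d x = gg S d b := fun x => le_antisymm (hn' b x) (hn' x b)
    have h2 := sum_gg S d
    simp only [h1, Finset.sum_const, Finset.card_univ, ZMod.card, smul_eq_mul, hn] at h2
    exact hb (Nat.eq_of_mul_eq_mul_left hp h2)
  obtain ⟨x, y, hxy⟩ := hex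
  have hx0 : gg S d x = 0 := by
    have h1 := (Nat.modEq_iff_dvd' hxy.le).1 (hmod x y)
    have h2 := Nat.le_of_dvd (by omega) h1
    have h3 := gg_le S d y
    omega
  have hall : ∀ b, gg S d b ^ 2 = p * gg S d b := by
    intro b
    have h1 := hmod x b
    rw [hx0] at h1
    have h2 : p ∣ gg S d b := (Nat.modEq_zero_iff_dvd.1 h1.symm)
    have h3 := gg_le S d b
    rcases Nat.eq_zero_or_pos (gg S d b) with h | h
    · rw [h]; simp
    · have := Nat.le_of_dvd h h2
      have h4 : gg S d b = p := by omega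
      rw [h4, sq]
  have hV : VV S n d = n * p * (p - n) := by
    rw [VV_eq S n hn]
    simp only [hall, ← Finset.mul_sum, sum_gg, hn]
    push_cast
    ring
  have h1 := sum_VV S n hn
  have h2 : VV S n d + VV S n d' ≤ ∑ d, VV S n d := by
    rw [← Finset.sum_pair hdd]
    exact Finset.sum_le_sum_of_subset_of_nonneg (Finset.subset_univ _)
      (fun _ _ _ => VV_nonneg S n _)
  have h3 := VV_pos S n d' hd'
  linarith

lemma re_char [NeZero p] (j : ℤ) :
    (ZMod.stdAddChar (j : ZMod p) : ℂ).re = Real.cos (2 * (Real.pi * j / p)) := by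
  rw [ZMod.stdAddChar_coe]
  have : (2 * (Real.pi : ℂ) * Complex.I * j / p) = ((2 * (Real.pi * j / p) : ℝ) : ℂ) * Complex.I := by
    push_cast; ring
  rw [this, Complex.exp_ofReal_mul_I_re]

lemma VV_lower [Fact p.Prime] (S : Finset (ZMod p × ZMod p)) (n : ℕ) (d : Option (ZMod p))
    (ε : ℝ)
    (h1 : ‖∑ x, (ZMod.stdAddChar (1 * (((gg S d x : ℕ) : ZMod p) - (n : ZMod p))) : ℂ)‖ ≤ ε * p)
    (h2 : ‖∑ x, (ZMod.stdAddChar (2 * (((gg S d x : ℕ) : ZMod p) - (n : ZMod p))) : ℂ)‖ ≤ ε * p) :
    (2 / 3 - 8 / 9 * ε) * (p : ℝ) ^ 3 ≤ Real.pi ^ 2 * VV S n d := by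
  have hp : (0 : ℝ) < p := by exact_mod_cast (Fact.out : p.Prime).pos
  have e1 : ∀ x, (ZMod.stdAddChar (1 * (((gg S d x : ℕ) : ZMod p) - (n : ZMod p))) : ℂ).re =
      Real.cos (2 * (Real.pi * ((gg S d x : ℝ) - n) / p)) := by
    intro x
    have := re_char (p := p) ((gg S d x : ℤ) - n)
    push_cast at this
    rw [one_mul, this]
  have e2 : ∀ x, (ZMod.stdAddChar (2 * (((gg S d x : ℕ) : ZMod p) - (n : ZMod p))) : ℂ).re =
      Real.cos (2 * (2 * (Real.pi * ((gg S d x : ℝ) - n) / p))) := by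
    intro x
    have := re_char (p := p) (2 * ((gg S d x : ℤ) - n))
    push_cast at this
    rw [this]
    congr 1
    ring
  have a1 := (Complex.re_le_norm _).trans h1
  have a2 := (Complex.abs_re_le_norm _).trans h2
  rw [Complex.re_sum] at a1 a2
  simp only [e1] at a1
  simp only [e2] at a2
  have a3 := (abs_le.1 a2).1
  have a4 : ∑ x : ZMod p, (2 / 3 - 7 / 9 * Real.cos (2 * (Real.pi * ((gg S d x : ℝ) - n) / p)) +
      1 / 9 * Real.cos (2 * (2 * (Real.pi * ((gg S d x : ℝ) - n) / p)))) ≤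
      ∑ x : ZMod p, (Real.pi * ((gg S d x : ℝ) - n) / p) ^ 2 :=
    Finset.sum_le_sum fun x _ => trig_bound _
  have a5 : ∑ x : ZMod p, (Real.pi * ((gg S d x : ℝ) - n) / p) ^ 2 =
      Real.pi ^ 2 * VV S n d / p ^ 2 := by
    unfold VV
    rw [Finset.mul_sum, Finset.sum_div]
    refine Finset.sum_congr rfl fun x _ => ?_
    field_simp
  rw [a5, Finset.sum_add_distrib, Finset.sum_sub_distrib, ← Finset.mul_sum, ← Finset.mul_sum,
    le_div_iff₀ (by positivity)] at a4
  simp only [Finset.sum_const, Finset.card_univ, ZMod.card, nsmul_eq_mul] at a4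
  refine le_trans ?_ a4
  have : (2 / 3 - 8 / 9 * ε) * (p : ℝ) ^ 3 = ((2 / 3 - 8 / 9 * ε) * p) * (p : ℝ) ^ 2 := by ring
  rw [this]
  apply mul_le_mul_of_nonneg_right _ (by positivity)
  linarith

theorem main (k : ℕ) (hk : 4 ≤ k) : ∃ p₀ : ℕ, ∀ p : ℕ, p.Prime → p₀ < p →
    ∀ S : Finset (ZMod p × ZMod p), p ∣ S.card →
      {d : Option (ZMod p) | ∃ b : ZMod p, gg S d b * p ≠ S.card}.ncard ≠ k := by
  obtain ⟨p₁, hp₁⟩ := weyl k (1 / 100) (by norm_num)
  refine ⟨max p₁ 2, fun p hp hlt S ⟨n, hn⟩ hcard => ?_⟩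
  have hfact : Fact p.Prime := ⟨hp⟩
  have h1 : p₁ < p := lt_of_le_of_lt (le_max_left _ _) hlt
  have h2 : 2 < p := lt_of_le_of_lt (le_max_right _ _) hlt
  have hp0 : (0 : ℝ) < p := by exact_mod_cast hp.pos
  classical
  set D : Finset (Option (ZMod p)) := Finset.univ.filter (fun d => ∃ b, gg S d b ≠ n) with hD
  have hDcard : D.card = k := by
    rw [← hcard, ← Set.ncard_coe_finset]
    congr 1
    ext d
    simp only [hD, Finset.coe_filter, Finset.mem_univ, true_and, Set.mem_ofPred_eq, hn]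
    refine exists_congr fun b => ?_
    rw [mul_comm p n]
    exact (not_congr (Nat.mul_left_inj hp.ne_zero)).symm
  have hsum : ∀ P, ∑ d ∈ D, (((gg S d (LL d P) : ℕ) : ZMod p) - n) = -n := by
    intro P
    have e1 : ∑ d ∈ D, (((gg S d (LL d P) : ℕ) : ZMod p) - n) =
        ∑ d, (((gg S d (LL d P) : ℕ) : ZMod p) - n) := by
      apply Finset.sum_subset (Finset.subset_univ _)
      intro d _ hd
      simp only [hD, Finset.mem_filter, Finset.mem_univ, true_and, not_exists, not_not] at hd
      rw [hd, sub_self]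
    rw [e1, Finset.sum_sub_distrib, ← Nat.cast_sum, sum_gg_point, hn]
    simp only [Finset.sum_const, Finset.card_univ, Fintype.card_option, ZMod.card, nsmul_eq_mul]
    split_ifs <;> simp
  have hbound : ∀ d ∈ D, ∀ r : ZMod p, r ≠ 0 →
      ‖∑ x, (ZMod.stdAddChar (r * (((gg S d x : ℕ) : ZMod p) - (n : ZMod p))) : ℂ)‖ ≤ 1 / 100 * p := by
    intro d hd r hr
    have hcard' : (D.erase d).card + 1 = k := by
      rw [Finset.card_erase_of_mem hd]; omega
    apply hp₁ p hfact h1 (fun x => r * (((gg S d x : ℕ) : ZMod p) - (n : ZMod p)))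
    · rw [← hcard']
      apply diffZero_of_sum d (D.erase d) (Finset.notMem_erase _ _) _
        (fun d x => r * (((gg S d x : ℕ) : ZMod p) - (n : ZMod p))) (r * (-n))
      intro P
      rw [← hsum P, ← Finset.add_sum_erase D _ hd, mul_add, Finset.mul_sum]
    · have : 0 < (D.erase d).card := by omega
      obtain ⟨d', hd'⟩ := Finset.card_pos.1 this
      obtain ⟨hne, hd'D⟩ := Finset.mem_erase.1 hd'
      obtain ⟨x, hx⟩ := nonconst S n hn d d' hne.symm (Finset.mem_filter.1 hd).2
        (Finset.mem_filter.1 hd'D).2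
      refine ⟨x, fun h => hx ?_⟩
      have := mul_left_cancel₀ hr h
      exact sub_left_inj.1 this
  have htwo : (2 : ZMod p) ≠ 0 := by
    intro h
    have : ((2 : ℕ) : ZMod p) = 0 := by exact_mod_cast h
    rw [ZMod.natCast_eq_zero_iff] at this
    have := Nat.le_of_dvd (by norm_num) this
    omega
  have hV : ∀ d ∈ D, (2 / 3 - 8 / 9 * (1 / 100)) * (p : ℝ) ^ 3 ≤ Real.pi ^ 2 * VV S n d :=
    fun d hd => VV_lower S n d _ (hbound d hd 1 one_ne_zero) (hbound d hd 2 htwo)
  have h3 := Finset.sum_le_sum hV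
  rw [← Finset.mul_sum, ← Finset.mul_sum, Finset.sum_const, hDcard, nsmul_eq_mul] at h3
  have h4 : ∑ d ∈ D, VV S n d ≤ n * p * (p - n) := by
    rw [← sum_VV S n hn]
    exact Finset.sum_le_sum_of_subset_of_nonneg (Finset.subset_univ _)
      (fun _ _ _ => VV_nonneg S n _)
  have h5 : (n : ℝ) * p * (p - n) ≤ (p : ℝ) ^ 3 / 4 := by
    have : 0 ≤ (p : ℝ) * (p - 2 * n) ^ 2 := by positivity
    nlinarith
  have h6 : Real.pi ^ 2 ≤ 10 := by
    have := Real.pi_lt_d2
    have := Real.pi_pos
    nlinarith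
  have h7 : 0 ≤ ∑ d ∈ D, VV S n d := Finset.sum_nonneg fun d _ => VV_nonneg S n d
  have h8 : Real.pi ^ 2 * ∑ d ∈ D, VV S n d ≤ 10 * ((p : ℝ) ^ 3 / 4) :=
    mul_le_mul h6 (h4.trans h5) h7 (by norm_num)
  have h9 : (4 : ℝ) ≤ k := by exact_mod_cast hk
  have h10 : 0 < (p : ℝ) ^ 3 := by positivity
  have h11 : 4 * (p : ℝ) ^ 3 ≤ k * (p : ℝ) ^ 3 := mul_le_mul_of_nonneg_right h9 h10.le
  linarith

end Pool.Agent.H604Z
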